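import Mathlib

set_option autoImplicit false
set_option linter.unusedVariables false
set_option linter.unusedSimpArgs false
set_option linter.unusedSectionVars false
set_option maxHeartbeats 4000000
open Classical Finset

namespace Pool.Agent.TH437.CS

/-- weight of the deleted set `D` inside `U` -/
noncomputable def w (ρ : ℝ) (U D : Finset ℕ) : ℝ := ρ ^ D.card * (1 - ρ) ^ (U \ D).card

lemma w_nonneg (ρ : ℝ) (h0 : 0 ≤ ρ) (h1 : ρ ≤ 1) (U D : Finset ℕ) : 0 ≤ w ρ U D := by
  unfold w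
  have : 0 ≤ 1 - ρ := by linarith
  positivity

/-- generating function of the number of deleted elements in `P` -/
lemma gen (ρ z : ℝ) (U P : Finset ℕ) (hP : P ⊆ U) :
    ∑ D ∈ U.powerset, w ρ U D * z ^ (D ∩ P).card = (ρ * z + (1 - ρ)) ^ P.card := by
  have h := Finset.prod_add (fun i => if i ∈ P then ρ * z else ρ) (fun _ : ℕ => 1 - ρ) U
  have hl : ∏ i ∈ U, ((if i ∈ P then ρ * z else ρ) + (1 - ρ)) = (ρ * z + (1 - ρ)) ^ P.card := by
    have h1 : ∀ i ∈ U, ((if i ∈ P then ρ * z else ρ) + (1 - ρ)) =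
        (if i ∈ P then ρ * z + (1 - ρ) else 1) := by
      intro i _
      by_cases hi : i ∈ P
      · simp [hi]
      · simp [hi]
    rw [Finset.prod_congr rfl h1, Finset.prod_ite, Finset.prod_const, Finset.prod_const_one,
      mul_one]
    congr 2
    ext i
    simp only [Finset.mem_filter]
    exact ⟨fun h => h.2, fun h => ⟨hP h, h⟩⟩
  rw [hl] at h
  rw [h]
  apply Finset.sum_congr rfl
  intro D hD
  rw [Finset.prod_const, Finset.prod_ite, Finset.prod_const, Finset.prod_const]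
  have e1 : (D.filter (fun i => i ∈ P)).card = (D ∩ P).card := by
    rw [Finset.filter_mem_eq_inter]
  have e2 : (D.filter (fun i => i ∈ P)).card + (D.filter (fun i => ¬ i ∈ P)).card = D.card :=
    Finset.card_filter_add_card_filter_not _
  unfold w
  rw [← e2, ← e1, mul_pow, pow_add]
  ring

lemma w_sum (ρ : ℝ) (U : Finset ℕ) : ∑ D ∈ U.powerset, w ρ U D = 1 := by
  have := gen ρ 1 U ∅ (Finset.empty_subset _)
  simpa using this

lemma swap (U P : Finset ℕ) (hP : P ⊆ U) (h : Finset ℕ → ℕ → ℝ) :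
    ∑ D ∈ U.powerset, ∑ u ∈ D ∩ P, h D u =
      ∑ D ∈ U.powerset, ∑ u ∈ P \ D, h (insert u D) u := by
  rw [Finset.sum_sigma', Finset.sum_sigma']
  refine Finset.sum_bij' (fun x _ => ⟨x.1.erase x.2, x.2⟩) (fun x _ => ⟨insert x.2 x.1, x.2⟩)
    ?_ ?_ ?_ ?_ ?_
  · rintro ⟨D, u⟩ hx
    simp only [Finset.mem_sigma, Finset.mem_powerset, Finset.mem_inter] at hx
    simp only [Finset.mem_sigma, Finset.mem_powerset, Finset.mem_sdiff]
    refine ⟨(Finset.erase_subset _ _).trans hx.1, hx.2.2, ?_⟩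
    simp
  · rintro ⟨D, u⟩ hx
    simp only [Finset.mem_sigma, Finset.mem_powerset, Finset.mem_sdiff] at hx
    simp only [Finset.mem_sigma, Finset.mem_powerset, Finset.mem_inter]
    refine ⟨?_, Finset.mem_insert_self _ _, hx.2.1⟩
    intro y hy
    rcases Finset.mem_insert.1 hy with rfl | hy
    · exact hP hx.2.1
    · exact hx.1 hy
  · rintro ⟨D, u⟩ hx
    simp only [Finset.mem_sigma, Finset.mem_powerset, Finset.mem_inter] at hx
    simp [Finset.insert_erase hx.2.1]
  · rintro ⟨D, u⟩ hx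
    simp only [Finset.mem_sigma, Finset.mem_powerset, Finset.mem_sdiff] at hx
    simp [Finset.erase_insert hx.2.2]
  · rintro ⟨D, u⟩ hx
    simp only [Finset.mem_sigma, Finset.mem_powerset, Finset.mem_inter] at hx
    simp [Finset.insert_erase hx.2.1]

lemma w_insert (ρ : ℝ) (U D : Finset ℕ) (u : ℕ) (hu : u ∈ U) (huD : u ∉ D) :
    (1 - ρ) * w ρ U (insert u D) = ρ * w ρ U D := by
  unfold w
  rw [Finset.card_insert_of_notMem huD]
  have : (U \ D).card = (U \ insert u D).card + 1 := by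
    have h1 : U \ insert u D = (U \ D).erase u := by
      ext y
      simp only [Finset.mem_sdiff, Finset.mem_insert, Finset.mem_erase]
      tauto
    rw [h1, Finset.card_erase_add_one]
    simp [hu, huD]
  rw [this]
  ring

/-- main swap inequality -/
lemma swap_bound (ρ : ℝ) (h0 : 0 < ρ) (h1 : ρ < 1) (U P : Finset ℕ) (hP : P ⊆ U)
    (G : Finset ℕ → ℝ) (B : ℝ)
    (hB : ∀ D ∈ U.powerset, ∑ u ∈ P \ D, G (insert u D) ≤ B) :
    ∑ D ∈ U.powerset, (if (D ∩ P).card = 0 then 0 else w ρ U D * G D) ≤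
      B * (ρ / (1 - ρ)) * ∑ D ∈ U.powerset, w ρ U D / ((D ∩ P).card + 1) := by
  have hq : 0 < 1 - ρ := by linarith
  have e1 : ∀ D ∈ U.powerset, (if (D ∩ P).card = 0 then 0 else w ρ U D * G D) =
      ∑ u ∈ D ∩ P, w ρ U D * G D / (D ∩ P).card := by
    intro D _
    rw [Finset.sum_const, nsmul_eq_mul]
    by_cases hc : (D ∩ P).card = 0
    · rw [if_pos hc, hc]; simp
    · rw [if_neg hc]
      have : ((D ∩ P).card : ℝ) ≠ 0 := by exact_mod_cast hc
      field_simp
  rw [Finset.sum_congr rfl e1, swap U P hP, Finset.mul_sum]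
  apply Finset.sum_le_sum
  intro D hD
  have e2 : ∀ u ∈ P \ D, w ρ U (insert u D) * G (insert u D) / ((insert u D ∩ P).card : ℝ) =
      (ρ / (1 - ρ)) * (w ρ U D / ((D ∩ P).card + 1)) * G (insert u D) := by
    intro u hu
    rw [Finset.mem_sdiff] at hu
    have hw : w ρ U (insert u D) = ρ / (1 - ρ) * w ρ U D := by
      have := w_insert ρ U D u (hP hu.1) hu.2
      field_simp
      linarith
    have hc : (insert u D ∩ P).card = (D ∩ P).card + 1 := by
      rw [Finset.insert_inter_of_mem hu.1, Finset.card_insert_of_notMem]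
      intro h
      exact hu.2 (Finset.mem_inter.1 h).1
    rw [hw, hc]
    push_cast
    ring
  rw [Finset.sum_congr rfl e2, ← Finset.mul_sum]
  have hnn : 0 ≤ (ρ / (1 - ρ)) * (w ρ U D / ((D ∩ P).card + 1)) := by
    have := w_nonneg ρ h0.le h1.le U D
    positivity
  calc (ρ / (1 - ρ)) * (w ρ U D / ((D ∩ P).card + 1)) * ∑ u ∈ P \ D, G (insert u D)
      ≤ (ρ / (1 - ρ)) * (w ρ U D / ((D ∩ P).card + 1)) * B :=
        mul_le_mul_of_nonneg_left (hB D hD) hnn
    _ = _ := by ring

/-- expectation of `1/(X+1)` -/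
lemma inv_exp (ρ : ℝ) (h0 : 0 < ρ) (h1 : ρ < 1) (U P : Finset ℕ) (hP : P ⊆ U) :
    ∑ D ∈ U.powerset, w ρ U D / ((D ∩ P).card + 1) ≤ 1 / (ρ * (P.card + 1)) := by
  have hq : 0 < 1 - ρ := by linarith
  have key : ∑ D ∈ U.powerset, ∑ u ∈ D ∩ P, w ρ U D / ((D ∩ P).card : ℝ) ≤ 1 := by
    rw [← w_sum ρ U]
    apply Finset.sum_le_sum
    intro D _
    rw [Finset.sum_const, nsmul_eq_mul]
    by_cases hc : (D ∩ P).card = 0
    · rw [hc]; simpa using w_nonneg ρ h0.le h1.le U D
    · have : ((D ∩ P).card : ℝ) ≠ 0 := by exact_mod_cast hc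
      apply le_of_eq
      field_simp
  rw [swap U P hP (fun D _ => w ρ U D / ((D ∩ P).card : ℝ))] at key
  have e3 : ∀ D ∈ U.powerset, ∑ u ∈ P \ D, w ρ U (insert u D) / ((insert u D ∩ P).card : ℝ) =
      (ρ / (1 - ρ)) * ((P.card + 1) * (w ρ U D / ((D ∩ P).card + 1)) - w ρ U D) := by
    intro D _
    have e2 : ∀ u ∈ P \ D, w ρ U (insert u D) / ((insert u D ∩ P).card : ℝ) =
        (ρ / (1 - ρ)) * (w ρ U D / ((D ∩ P).card + 1)) := by
      intro u hu
      rw [Finset.mem_sdiff] at hu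
      have hw : w ρ U (insert u D) = ρ / (1 - ρ) * w ρ U D := by
        have := w_insert ρ U D u (hP hu.1) hu.2
        field_simp
        linarith
      have hc : (insert u D ∩ P).card = (D ∩ P).card + 1 := by
        rw [Finset.insert_inter_of_mem hu.1, Finset.card_insert_of_notMem]
        intro h
        exact hu.2 (Finset.mem_inter.1 h).1
      rw [hw, hc]
      push_cast
      ring
    rw [Finset.sum_congr rfl e2, Finset.sum_const, nsmul_eq_mul]
    have hcard : ((P \ D).card : ℝ) = P.card - (D ∩ P).card := by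
      have := Finset.card_sdiff_add_card_inter P D
      rw [Finset.inter_comm D P, ← this]
      push_cast
      ring
    rw [hcard]
    have hpos : ((D ∩ P).card : ℝ) + 1 ≠ 0 := by positivity
    field_simp
    ring
  rw [Finset.sum_congr rfl e3, ← Finset.mul_sum, Finset.sum_sub_distrib, w_sum,
    ← Finset.mul_sum] at key
  set X := ∑ D ∈ U.powerset, w ρ U D / ((D ∩ P).card + 1) with hX
  have hPpos : (0 : ℝ) < P.card + 1 := by positivity
  rw [le_div_iff₀ (by positivity)]
  have h3 : ρ * ((P.card + 1) * X - 1) ≤ 1 - ρ := by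
    have := mul_le_mul_of_nonneg_left key hq.le
    have e : (1 - ρ) * (ρ / (1 - ρ) * ((P.card + 1) * X - 1)) = ρ * ((P.card + 1) * X - 1) := by
      field_simp
    rw [e] at this
    linarith
  nlinarith

end Pool.Agent.TH437.CS
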