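import Mathlib

set_option autoImplicit false
set_option linter.unusedVariables false
set_option linter.unusedSimpArgs false
set_option linter.unusedSectionVars false
set_option maxHeartbeats 4000000
open Classical Finset

namespace Pool.Agent.TH437.CS

lemma nx_ex (D : Finset ℕ) (v : ℕ) : ∃ k, v < k ∧ k ∉ D := by
  refine ⟨D.sup id + v + 1, by omega, ?_⟩
  intro h
  have := Finset.le_sup (f := id) h
  simp only [id] at this
  omega

/-- the least element above `v` that is not deleted -/
noncomputable def nx (D : Finset ℕ) (v : ℕ) : ℕ := Nat.find (nx_ex D v)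

lemma nx_gt (D : Finset ℕ) (v : ℕ) : v < nx D v := (Nat.find_spec (nx_ex D v)).1

lemma nx_notMem (D : Finset ℕ) (v : ℕ) : nx D v ∉ D := (Nat.find_spec (nx_ex D v)).2

lemma nx_le (D : Finset ℕ) (v k : ℕ) (h : v < k) (hk : k ∉ D) : nx D v ≤ k :=
  Nat.find_min' (nx_ex D v) ⟨h, hk⟩

/-- the `i`-th kept element above `v` -/
noncomputable def sq (D : Finset ℕ) (v i : ℕ) : ℕ := (nx D)^[i + 1] v

lemma sq_zero (D : Finset ℕ) (v : ℕ) : sq D v 0 = nx D v := rfl

lemma sq_succ (D : Finset ℕ) (v i : ℕ) : sq D v (i + 1) = nx D (sq D v i) := by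
  unfold sq
  rw [Function.iterate_succ_apply']

lemma sq_strict (D : Finset ℕ) (v : ℕ) : StrictMono (sq D v) := by
  apply strictMono_nat_of_lt_succ
  intro i
  rw [sq_succ]
  exact nx_gt _ _

lemma sq_gt (D : Finset ℕ) (v i : ℕ) : v + i < sq D v i := by
  induction i with
  | zero => exact nx_gt _ _
  | succ i ih =>
    have := sq_strict D v (Nat.lt_succ_self i)
    simp only [Nat.succ_eq_add_one] at this
    omega

lemma sq_notMem (D : Finset ℕ) (v i : ℕ) : sq D v i ∉ D := by
  cases i with
  | zero => exact nx_notMem _ _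
  | succ i => rw [sq_succ]; exact nx_notMem _ _

lemma sq_shift (D : Finset ℕ) (v m i : ℕ) : sq D (sq D v m) i = sq D v (m + 1 + i) := by
  unfold sq
  rw [← Function.iterate_add_apply]
  congr 1
  omega

lemma sq_surj (D : Finset ℕ) (v k : ℕ) (h : v < k) (hk : k ∉ D) : ∃ i, sq D v i = k := by
  have hex : ∃ i, k ≤ sq D v i := ⟨k, by have := sq_gt D v k; omega⟩
  refine ⟨Nat.find hex, ?_⟩
  have h1 := Nat.find_spec hex
  apply le_antisymm _ h1
  rcases Nat.eq_zero_or_pos (Nat.find hex) with h0 | hpos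
  · rw [h0, sq_zero]
    exact nx_le _ _ _ h hk
  · have h2 := Nat.find_min hex (m := Nat.find hex - 1) (by omega)
    push Not at h2
    have h3 : sq D v (Nat.find hex) = nx D (sq D v (Nat.find hex - 1)) := by
      rw [← sq_succ]; congr 1; omega
    rw [h3]
    exact nx_le _ _ _ h2 hk

lemma nx_congr (D D' : Finset ℕ) (v : ℕ) (h : ∀ k, v < k → (k ∈ D ↔ k ∈ D')) :
    nx D v = nx D' v := by
  apply le_antisymm
  · exact nx_le _ _ _ (nx_gt _ _) (fun hm => nx_notMem D' v ((h _ (nx_gt _ _)).1 hm))
  · exact nx_le _ _ _ (nx_gt _ _) (fun hm => nx_notMem D v ((h _ (nx_gt _ _)).2 hm))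

lemma sq_congr (D D' : Finset ℕ) (v : ℕ) (h : ∀ k, v < k → (k ∈ D ↔ k ∈ D')) (i : ℕ) :
    sq D v i = sq D' v i := by
  induction i with
  | zero => exact nx_congr D D' v h
  | succ i ih =>
    rw [sq_succ, sq_succ, ← ih]
    apply nx_congr
    intro k hk
    apply h
    have := sq_gt D v i
    omega

/-- gap property of sums of `L` consecutive terms -/
lemma gap (b : ℕ → ℕ) (hb : StrictMono b) (L i d : ℕ) :
    (∑ t ∈ range L, b (i + t)) + L * d ≤ ∑ t ∈ range L, b (i + d + t) := by
  have h : ∀ t ∈ range L, b (i + t) + d ≤ b (i + d + t) := by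
    intro t _
    have : ∀ e j, b j + e ≤ b (j + e) := by
      intro e
      induction e with
      | zero => intro j; simp
      | succ e ih =>
        intro j
        have h1 := ih j
        have h2 : b (j + e) < b (j + (e + 1)) := hb (by omega)
        omega
    have := this d (i + t)
    rwa [show i + t + d = i + d + t from by ring] at this
  have h2 := Finset.sum_le_sum h
  rw [Finset.sum_add_distrib, Finset.sum_const, Finset.card_range, smul_eq_mul] at h2
  exact h2

/-- a run of kept elements as an interval with the deleted elements removed -/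
lemma run_sum (D : Finset ℕ) (j k : ℕ) (hjk : j < k) :
    ∑ t ∈ Ico j k, sq D 0 t + ∑ v ∈ D ∩ Icc (sq D 0 j) (sq D 0 (k - 1)), v =
      ∑ v ∈ Icc (sq D 0 j) (sq D 0 (k - 1)), v := by
  have h1 : ∑ t ∈ Ico j k, sq D 0 t =
      ∑ v ∈ (Icc (sq D 0 j) (sq D 0 (k - 1))).filter (fun v => v ∉ D), v := by
    rw [← Finset.sum_image (f := fun v => v) (s := Ico j k) (g := sq D 0)]
    · apply Finset.sum_congr _ (fun _ _ => rfl)
      ext v
      simp only [Finset.mem_image, Finset.mem_Ico, Finset.mem_filter, Finset.mem_Icc]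
      constructor
      · rintro ⟨t, ⟨ht1, ht2⟩, rfl⟩
        exact ⟨⟨(sq_strict D 0).monotone ht1, (sq_strict D 0).monotone (by omega)⟩,
          sq_notMem _ _ _⟩
      · rintro ⟨⟨hv1, hv2⟩, hv3⟩
        have hv0 : 0 < v := by
          have := sq_gt D 0 j
          omega
        obtain ⟨t, rfl⟩ := sq_surj D 0 v hv0 hv3
        refine ⟨t, ⟨(sq_strict D 0).le_iff_le.1 hv1, ?_⟩, rfl⟩
        have := (sq_strict D 0).le_iff_le.1 hv2
        omega
    · intro x _ y _ hxy
      exact (sq_strict D 0).injective hxy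
  rw [h1]
  have h2 : D ∩ Icc (sq D 0 j) (sq D 0 (k - 1)) =
      (Icc (sq D 0 j) (sq D 0 (k - 1))).filter (fun v => ¬ v ∉ D) := by
    ext v
    simp only [Finset.mem_inter, Finset.mem_filter, not_not]
    tauto
  rw [h2, Finset.sum_filter_add_sum_filter_not]

end Pool.Agent.TH437.CS
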