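import Mathlib
import Pool.Agent.TH437.CS.Seq

set_option autoImplicit false
set_option linter.unusedVariables false
set_option linter.unusedSimpArgs false
set_option linter.unusedSectionVars false
set_option maxHeartbeats 4000000
open Classical Finset

namespace Pool.Agent.TH437.CS

/-- second moment inequality for the number of values of `f` -/
lemma second_moment {α : Type*} (R : Finset α) (f : α → ℕ) :
    (R.card) ^ 2 ≤ (R.image f).card * ((R ×ˢ R).filter (fun p => f p.1 = f p.2)).card := by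
  have h1 : R.card = ∑ s ∈ R.image f, (R.filter (fun x => f x = s)).card :=
    Finset.card_eq_sum_card_image f R
  have h2 : ((R ×ˢ R).filter (fun p => f p.1 = f p.2)).card =
      ∑ s ∈ R.image f, (R.filter (fun x => f x = s)).card ^ 2 := by
    rw [Finset.card_eq_sum_card_fiberwise (f := fun p : α × α => f p.1) (t := R.image f)]
    · apply Finset.sum_congr rfl
      intro s _
      have : (((R ×ˢ R).filter (fun p => f p.1 = f p.2)).filter (fun p => f p.1 = s)) =
          (R.filter (fun x => f x = s)) ×ˢ (R.filter (fun x => f x = s)) := by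
        ext ⟨x, y⟩
        simp only [Finset.mem_filter, Finset.mem_product]
        constructor
        · rintro ⟨⟨⟨h1, h2⟩, h3⟩, h4⟩
          exact ⟨⟨h1, h4⟩, ⟨h2, by rw [← h3]; exact h4⟩⟩
        · rintro ⟨⟨h1, h4⟩, ⟨h2, h5⟩⟩
          exact ⟨⟨⟨h1, h2⟩, by rw [h4, h5]⟩, h4⟩
      rw [this, Finset.card_product, pow_two]
    · intro p hp
      have := (Finset.mem_filter.1 (Finset.mem_coe.1 hp)).1
      exact Finset.mem_coe.2 (Finset.mem_image_of_mem f (Finset.mem_product.1 this).1)
  rw [h2, h1]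
  exact sq_sum_le_card_mul_sum_sq

/-- sum of a run of consecutive terms -/
def run (a : ℕ → ℕ) (j k : ℕ) : ℕ := ∑ t ∈ Ico j k, a t

lemma run_add (a : ℕ → ℕ) (j k l : ℕ) (h1 : j ≤ k) (h2 : k ≤ l) :
    run a j k + run a k l = run a j l := Finset.sum_Ico_consecutive a h1 h2

lemma run_pos (a : ℕ → ℕ) (ha : ∀ i, 0 < a i) (j k : ℕ) (h : j < k) : 0 < run a j k := by
  unfold run
  apply Finset.sum_pos (fun i _ => ha i)
  exact ⟨j, by simp [h]⟩

/-- the index pairs -/
def Rn (m : ℕ) : Finset (ℕ × ℕ) := ((range (m + 1)) ×ˢ (range (m + 1))).filter (fun p => p.1 < p.2)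

lemma mem_Rn (m : ℕ) (p : ℕ × ℕ) : p ∈ Rn m ↔ p.1 < p.2 ∧ p.2 ≤ m := by
  unfold Rn
  simp only [Finset.mem_filter, Finset.mem_product, Finset.mem_range]
  omega

lemma card_Rn (m : ℕ) : 2 * (Rn m).card = m * (m + 1) := by
  have h1 : (range (m + 1)).offDiag = Rn m ∪ (Rn m).image Prod.swap := by
    ext ⟨x, y⟩
    simp only [Finset.mem_offDiag, Finset.mem_range, Finset.mem_union, Finset.mem_image, mem_Rn,
      Prod.exists, Prod.swap_prod_mk, Prod.mk.injEq]
    constructor
    · rintro ⟨h1, h2, h3⟩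
      rcases lt_or_gt_of_ne h3 with h | h
      · left; omega
      · right; exact ⟨y, x, by omega, rfl, rfl⟩
    · rintro (h | ⟨a, b, h, rfl, rfl⟩)
      · omega
      · omega
  have h2 : Disjoint (Rn m) ((Rn m).image Prod.swap) := by
    rw [Finset.disjoint_left]
    rintro ⟨x, y⟩ hx hy
    simp only [Finset.mem_image, mem_Rn, Prod.exists, Prod.swap_prod_mk, Prod.mk.injEq] at hx hy
    obtain ⟨a, b, h, rfl, rfl⟩ := hy
    omega
  have h3 := Finset.offDiag_card (range (m + 1))
  rw [h1, Finset.card_union_of_disjoint h2, Finset.card_image_of_injective _ Prod.swap_injective,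
    Finset.card_range] at h3
  have h4 : (m + 1) * (m + 1) - (m + 1) = m * (m + 1) := by
    rw [Nat.sub_eq_iff_eq_add (by nlinarith)]
    ring
  omega

/-- separated coincidences -/
def Quad (a : ℕ → ℕ) (m : ℕ) : Finset ((ℕ × ℕ) × (ℕ × ℕ)) :=
  ((Rn m) ×ˢ (Rn m)).filter (fun p => p.1.2 ≤ p.2.1 ∧ run a p.1.1 p.1.2 = run a p.2.1 p.2.2)

lemma coincidences (a : ℕ → ℕ) (ha : ∀ i, 0 < a i) (m : ℕ) :
    (((Rn m) ×ˢ (Rn m)).filter (fun p => run a p.1.1 p.1.2 = run a p.2.1 p.2.2)).card ≤
      (Rn m).card + 4 * (Quad a m).card := by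
  set E := ((Rn m) ×ˢ (Rn m)).filter (fun p => run a p.1.1 p.1.2 = run a p.2.1 p.2.2) with hE
  set Ed := (Rn m).image (fun p => (p, p)) with hEd
  set E1 := E.filter (fun p => p.1.1 < p.2.1) with hE1
  set A1 := E1.filter (fun p => p.1.2 ≤ p.2.1) with hA1
  set A2 := E1.filter (fun p => ¬ p.1.2 ≤ p.2.1) with hA2
  have hmem : ∀ p, p ∈ E ↔ (p.1.1 < p.1.2 ∧ p.1.2 ≤ m) ∧ (p.2.1 < p.2.2 ∧ p.2.2 ≤ m) ∧
      run a p.1.1 p.1.2 = run a p.2.1 p.2.2 := by
    intro p
    rw [hE, Finset.mem_filter, Finset.mem_product, mem_Rn, mem_Rn]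
    tauto
  have hcov : E ⊆ Ed ∪ (E1 ∪ E1.image Prod.swap) := by
    rintro ⟨⟨j, k⟩, ⟨j', k'⟩⟩ hp
    have hp' := (hmem _).1 hp
    simp only at hp'
    obtain ⟨⟨h1, h2⟩, ⟨h3, h4⟩, h5⟩ := hp'
    rcases lt_trichotomy j j' with h | h | h
    · apply Finset.mem_union_right
      apply Finset.mem_union_left
      rw [hE1, Finset.mem_filter]
      exact ⟨hp, h⟩
    · apply Finset.mem_union_left
      subst h
      have : k = k' := by
        rcases lt_trichotomy k k' with hk | hk | hk
        · have e1 := run_add a j k k' h1.le hk.le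
          have e2 := run_pos a ha k k' hk
          omega
        · exact hk
        · have e1 := run_add a j k' k h3.le hk.le
          have e2 := run_pos a ha k' k hk
          omega
      subst this
      rw [hEd, Finset.mem_image]
      exact ⟨(j, k), (mem_Rn _ _).2 ⟨h1, h2⟩, rfl⟩
    · apply Finset.mem_union_right
      apply Finset.mem_union_right
      rw [Finset.mem_image]
      refine ⟨((j', k'), (j, k)), ?_, rfl⟩
      rw [hE1, Finset.mem_filter]
      refine ⟨(hmem _).2 ⟨⟨h3, h4⟩, ⟨h1, h2⟩, h5.symm⟩, h⟩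
  have hEd' : Ed.card ≤ (Rn m).card := Finset.card_image_le
  have hA1' : A1.card ≤ (Quad a m).card := by
    apply Finset.card_le_card
    intro p hp
    rw [hA1, Finset.mem_filter, hE1, Finset.mem_filter] at hp
    obtain ⟨⟨hp1, hp2⟩, hp3⟩ := hp
    rw [hE, Finset.mem_filter] at hp1
    unfold Quad
    rw [Finset.mem_filter]
    exact ⟨hp1.1, hp3, hp1.2⟩
  have hA2' : A2.card ≤ (Quad a m).card := by
    apply Finset.card_le_card_of_injOn (fun p => ((p.1.1, p.2.1), (p.1.2, p.2.2)))
    · rintro ⟨⟨j, k⟩, ⟨j', k'⟩⟩ hp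
      rw [Finset.mem_coe, hA2, Finset.mem_filter, hE1, Finset.mem_filter, hmem] at hp
      simp only at hp
      obtain ⟨⟨⟨⟨h1, h2⟩, ⟨h3, h4⟩, h5⟩, h6⟩, h7⟩ := hp
      push Not at h7
      have hkk : k < k' := by
        by_contra hcon
        push Not at hcon
        have e1 := run_add a j' k' k h3.le hcon
        have e2 := run_add a j j' k h6.le h7.le
        have e3 := run_pos a ha j j' h6
        omega
      rw [Finset.mem_coe]
      unfold Quad
      rw [Finset.mem_filter, Finset.mem_product, mem_Rn, mem_Rn]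
      simp only
      refine ⟨⟨⟨h6, by omega⟩, ⟨hkk, h4⟩⟩, h7.le, ?_⟩
      have e1 := run_add a j j' k h6.le h7.le
      have e2 := run_add a j' k k' h7.le hkk.le
      omega
    · rintro ⟨⟨j, k⟩, ⟨j', k'⟩⟩ _ ⟨⟨l, r⟩, ⟨l', r'⟩⟩ _ h
      simp only [Prod.mk.injEq] at h ⊢
      tauto
  have hE1' : E1.card = A1.card + A2.card :=
    (Finset.card_filter_add_card_filter_not _).symm
  have h1 := Finset.card_le_card hcov
  have h2 := Finset.card_union_le Ed (E1 ∪ E1.image Prod.swap)
  have h3 := Finset.card_union_le E1 (E1.image Prod.swap)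
  have h4 : (E1.image Prod.swap).card ≤ E1.card := Finset.card_image_le
  omega

/-- coincidences in terms of values: an interval `[x, x']` and `L` kept elements above it -/
noncomputable def Gf (n x x' : ℕ) (D : Finset ℕ) : Finset (ℕ × ℕ) :=
  ((range n) ×ˢ (Icc 1 n)).filter (fun p => sq D x' (p.1 + p.2 - 1) ≤ n ∧
    ∑ t ∈ range p.2, sq D x' (p.1 + t) + ∑ v ∈ D ∩ Icc x x', v = ∑ v ∈ Icc x x', v)

lemma quad_le (n : ℕ) (D : Finset ℕ) (m : ℕ) (hm : ∀ j < m, sq D 0 j ≤ n) :
    (Quad (sq D 0) m).card ≤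
      ∑ p ∈ ((Icc 1 n) ×ˢ (Icc 1 n)).filter (fun p => p.1 ≤ p.2), (Gf n p.1 p.2 D).card := by
  rw [← Finset.card_sigma]
  apply Finset.card_le_card_of_injOn
    (fun p => (⟨(sq D 0 p.1.1, sq D 0 (p.1.2 - 1)), (p.2.1 - p.1.2, p.2.2 - p.2.1)⟩ :
      (_ : ℕ × ℕ) × (ℕ × ℕ)))
  · rintro ⟨⟨i1, i2⟩, ⟨i3, i4⟩⟩ hp
    rw [Finset.mem_coe] at hp
    unfold Quad at hp
    rw [Finset.mem_filter, Finset.mem_product, mem_Rn, mem_Rn] at hp
    simp only at hp
    obtain ⟨⟨⟨h1, h2⟩, ⟨h3, h4⟩⟩, h5, h6⟩ := hp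
    have hmn : m ≤ n := by
      have e1 := hm (m - 1) (by omega)
      have e2 := sq_gt D 0 (m - 1)
      omega
    have g1 := sq_gt D 0 i1
    have g2 := sq_gt D 0 (i2 - 1)
    have hsh : ∀ s, sq D (sq D 0 (i2 - 1)) (i3 - i2 + s) = sq D 0 (i3 + s) := by
      intro s
      rw [sq_shift]
      congr 1
      omega
    rw [Finset.mem_coe, Finset.mem_sigma]
    constructor
    · simp only [Finset.mem_filter, Finset.mem_product, Finset.mem_Icc]
      refine ⟨⟨⟨by omega, hm _ (by omega)⟩, ⟨by omega, hm _ (by omega)⟩⟩, ?_⟩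
      exact (sq_strict D 0).monotone (by omega)
    · simp only
      unfold Gf
      simp only [Finset.mem_filter, Finset.mem_product, Finset.mem_Icc, Finset.mem_range]
      refine ⟨⟨by omega, by omega, by omega⟩, ?_, ?_⟩
      · rw [show i3 - i2 + (i4 - i3) - 1 = i3 - i2 + (i4 - 1 - i3) from by omega, hsh]
        exact hm _ (by omega)
      · have e1 : ∑ t ∈ range (i4 - i3), sq D (sq D 0 (i2 - 1)) (i3 - i2 + t) =
            run (sq D 0) i3 i4 := by
          unfold run
          rw [Finset.sum_Ico_eq_sum_range]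
          exact Finset.sum_congr rfl (fun t _ => hsh t)
        rw [e1, ← h6]
        exact run_sum D i1 i2 h1
  · rintro ⟨⟨i1, i2⟩, ⟨i3, i4⟩⟩ hp ⟨⟨j1, j2⟩, ⟨j3, j4⟩⟩ hq h
    rw [Finset.mem_coe] at hp hq
    unfold Quad at hp hq
    rw [Finset.mem_filter, Finset.mem_product, mem_Rn, mem_Rn] at hp hq
    simp only at hp hq
    simp only [Sigma.mk.injEq, Prod.mk.injEq, heq_eq_eq] at h
    obtain ⟨⟨e1, e2⟩, e3, e4⟩ := h
    have f1 := (sq_strict D 0).injective e1
    have f2 := (sq_strict D 0).injective e2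
    have : i2 = j2 := by omega
    have : i3 = j3 := by omega
    have : i4 = j4 := by omega
    simp only [Prod.mk.injEq]
    omega

/-- number of kept elements in `[1, n]` -/
lemma exists_m (n : ℕ) (D : Finset ℕ) :
    ∃ m, (∀ j < m, sq D 0 j ≤ n) ∧ n ≤ D.card + m ∧ m ≤ n := by
  have hex : ∃ j, n < sq D 0 j := ⟨n, by have := sq_gt D 0 n; omega⟩
  refine ⟨Nat.find hex, ?_, ?_, ?_⟩
  · intro j hj
    have := Nat.find_min hex hj
    push Not at this
    exact this
  · have hsub : Icc 1 n ⊆ D ∪ (range (Nat.find hex)).image (sq D 0) := by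
      intro v hv
      rw [Finset.mem_Icc] at hv
      rw [Finset.mem_union]
      by_cases hD : v ∈ D
      · left; exact hD
      · right
        obtain ⟨i, rfl⟩ := sq_surj D 0 v (by omega) hD
        rw [Finset.mem_image]
        refine ⟨i, ?_, rfl⟩
        rw [Finset.mem_range]
        by_contra hcon
        push Not at hcon
        have h1 := (sq_strict D 0).monotone hcon
        have h2 := Nat.find_spec hex
        omega
    have h1 := Finset.card_le_card hsub
    have h2 := Finset.card_union_le D ((range (Nat.find hex)).image (sq D 0))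
    have h3 : ((range (Nat.find hex)).image (sq D 0)).card ≤ (range (Nat.find hex)).card :=
      Finset.card_image_le
    rw [Finset.card_range] at h3
    rw [Nat.card_Icc] at h1
    omega
  · apply Nat.find_min' hex
    have := sq_gt D 0 n
    omega

end Pool.Agent.TH437.CS
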