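import Mathlib
import Pool.Agent.TH437.CS.Model
import Pool.Agent.TH437.CS.Pairs

set_option autoImplicit false
set_option linter.unusedVariables false
set_option linter.unusedSimpArgs false
set_option linter.unusedSectionVars false
set_option maxHeartbeats 400000
open Classical Finset

namespace Pool.Agent.TH437.CS

/-- sum of the integers in `[x, x']` -/
def T (x x' : ℕ) : ℕ := ∑ v ∈ Icc x x', v

lemma T_formula (x x' : ℕ) (h : x ≤ x') : 2 * T x x' = (x' + 1 - x) * (x + x') := by
  unfold T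
  induction x', h using Nat.le_induction with
  | base =>
    simp
    ring
  | succ y hy ih =>
    rw [Finset.sum_Icc_succ_top (by omega), mul_add, ih]
    obtain ⟨d, rfl⟩ := Nat.exists_eq_add_of_le hy
    rw [show x + d + 1 - x = d + 1 from by omega, show x + d + 1 + 1 - x = d + 2 from by omega]
    ring

/-- relevant lengths -/
def Rg (n q x x' : ℕ) : Finset ℕ :=
  (Icc 1 n).filter (fun L => L * x' ≤ T x x' ∧ q * T x x' ≤ q * (L * n) + 2 * T x x')

lemma s_le (n x' : ℕ) (D : Finset ℕ) (i L : ℕ) (h : sq D x' (i + L - 1) ≤ n) :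
    ∑ t ∈ range L, sq D x' (i + t) ≤ L * n := by
  calc ∑ t ∈ range L, sq D x' (i + t) ≤ ∑ t ∈ range L, n := by
        apply Finset.sum_le_sum
        intro t ht
        rw [Finset.mem_range] at ht
        exact ((sq_strict D x').monotone (by omega)).trans h
    _ = L * n := by simp

lemma s_ge (x' : ℕ) (D : Finset ℕ) (i L : ℕ) :
    L * (x' + 1) ≤ ∑ t ∈ range L, sq D x' (i + t) := by
  calc L * (x' + 1) = ∑ t ∈ range L, (x' + 1) := by simp
    _ ≤ _ := by
        apply Finset.sum_le_sum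
        intro t _
        have := sq_gt D x' (i + t)
        omega

lemma Gf_card_le (n x x' : ℕ) (D : Finset ℕ) (hx : x ≤ x') :
    (Gf n x x' D).card ≤ (Icc x x').card := by
  have : (Icc x x').card = (Icc 1 (Icc x x').card).card := by rw [Nat.card_Icc]; simp
  rw [this]
  apply Finset.card_le_card_of_injOn (fun p => p.2)
  · rintro ⟨i, L⟩ hp
    rw [Finset.mem_coe] at hp
    unfold Gf at hp
    rw [Finset.mem_filter, Finset.mem_product, Finset.mem_Icc] at hp
    simp only at hp
    obtain ⟨⟨h1, h2, h3⟩, h4, h5⟩ := hp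
    rw [Finset.mem_coe, Finset.mem_Icc]
    refine ⟨h2, ?_⟩
    simp only
    have e1 := s_ge x' D i L
    have e2 : ∑ v ∈ Icc x x', v ≤ (Icc x x').card * x' := by
      calc ∑ v ∈ Icc x x', v ≤ ∑ v ∈ Icc x x', x' :=
            Finset.sum_le_sum (fun v hv => (Finset.mem_Icc.1 hv).2)
        _ = _ := by simp
    by_contra hcon
    push Not at hcon
    have e3 : ((Icc x x').card + 1) * (x' + 1) ≤ L * (x' + 1) := Nat.mul_le_mul_right _ hcon
    have e5 : ∑ t ∈ range L, sq D x' (i + t) ≤ ∑ v ∈ Icc x x', v := by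
      rw [← h5]; exact Nat.le_add_right _ _
    have e6 := e3.trans (e1.trans (e5.trans e2))
    have e7 : ((Icc x x').card + 1) * (x' + 1) = (Icc x x').card * x' + (Icc x x').card + x' + 1 := by
      ring
    omega
  · rintro ⟨i, L⟩ hp ⟨i2, L2⟩ hq h
    rw [Finset.mem_coe] at hp hq
    unfold Gf at hp hq
    rw [Finset.mem_filter, Finset.mem_product, Finset.mem_Icc] at hp hq
    simp only at hp hq h
    subst h
    obtain ⟨⟨h1, h2, h3⟩, h4, h5⟩ := hp
    obtain ⟨⟨g1, g2, g3⟩, g4, g5⟩ := hq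
    rcases lt_trichotomy i i2 with hlt | heq | hgt
    · obtain ⟨d, rfl⟩ := Nat.exists_eq_add_of_lt hlt
      have := gap (sq D x') (sq_strict D x') L i (d + 1)
      rw [show i + (d + 1) = i + d + 1 from by ring] at this
      nlinarith
    · rw [heq]
    · obtain ⟨d, rfl⟩ := Nat.exists_eq_add_of_lt hgt
      have := gap (sq D x') (sq_strict D x') L i2 (d + 1)
      rw [show i2 + (d + 1) = i2 + d + 1 from by ring] at this
      nlinarith

lemma Gf_range (n q x x' : ℕ) (D : Finset ℕ) (hx : x ≤ x')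
    (hq : q * (D ∩ Icc x x').card < (Icc x x').card) :
    ∀ p ∈ Gf n x x' D, p.2 ∈ Rg n q x x' := by
  rintro ⟨i, L⟩ hp
  unfold Gf at hp
  rw [Finset.mem_filter, Finset.mem_product, Finset.mem_Icc] at hp
  simp only at hp
  obtain ⟨⟨h1, h2, h3⟩, h4, h5⟩ := hp
  unfold Rg
  rw [Finset.mem_filter, Finset.mem_Icc]
  have e1 := s_ge x' D i L
  have e2 := s_le n x' D i L h4
  have e3 : ∑ v ∈ D ∩ Icc x x', v ≤ (D ∩ Icc x x').card * x' := by
    calc ∑ v ∈ D ∩ Icc x x', v ≤ ∑ v ∈ D ∩ Icc x x', x' :=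
          Finset.sum_le_sum (fun v hv => (Finset.mem_Icc.1 (Finset.mem_inter.1 hv).2).2)
      _ = _ := by simp
  have e4 := T_formula x x' hx
  have e5 : (Icc x x').card = x' + 1 - x := Nat.card_Icc _ _
  rw [← e5] at e4
  refine ⟨⟨h2, h3⟩, ?_, ?_⟩
  · show L * x' ≤ T x x'
    have e6 : ∑ t ∈ range L, sq D x' (i + t) ≤ T x x' := by
      unfold T
      rw [← h5]; exact Nat.le_add_right _ _
    exact (Nat.mul_le_mul_left _ (Nat.le_succ _)).trans (e1.trans e6)
  · show q * T x x' ≤ q * (L * n) + 2 * T x x'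
    have e6 : T x x' ≤ L * n + (D ∩ Icc x x').card * x' := by
      unfold T
      rw [← h5]
      exact Nat.add_le_add e2 e3
    have e7 : q * T x x' ≤ q * (L * n) + q * ((D ∩ Icc x x').card * x') := by
      calc q * T x x' ≤ q * (L * n + (D ∩ Icc x x').card * x') := Nat.mul_le_mul_left _ e6
        _ = _ := by ring
    have e8 : q * ((D ∩ Icc x x').card * x') ≤ (Icc x x').card * x' := by
      rw [← mul_assoc]
      exact Nat.mul_le_mul_right _ hq.le
    have e9 : (Icc x x').card * x' ≤ 2 * T x x' := by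
      rw [e4]
      exact Nat.mul_le_mul_left _ (by omega)
    omega

/-- the bound for the number of hits -/
noncomputable def Bd (n q x x' : ℕ) : ℝ :=
  ∑ L ∈ Rg n q x x', (((Icc x x').card - 1 : ℝ) / L + 1)

lemma window (b : ℕ → ℕ) (hb : StrictMono b) (n L : ℕ) (hL : 1 ≤ L) (x x' c t0 : ℕ) (hx : x ≤ x') :
    (((range n).filter (fun i => ∃ u ∈ Icc x x',
      ∑ t ∈ range L, b (i + t) + (u + c) = t0)).card : ℝ) ≤
      ((Icc x x').card - 1 : ℝ) / L + 1 := by
  set I := (range n).filter (fun i => ∃ u ∈ Icc x x', ∑ t ∈ range L, b (i + t) + (u + c) = t0)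
    with hI
  have hcard : ((Icc x x').card : ℝ) = x' - x + 1 := by
    rw [Nat.card_Icc, Nat.cast_sub (by omega)]
    push_cast
    ring
  have hLpos : (0 : ℝ) < L := by exact_mod_cast hL
  have hxx : (x : ℝ) ≤ x' := by exact_mod_cast hx
  rcases I.eq_empty_or_nonempty with he | hne
  · rw [he, hcard]
    simp only [Finset.card_empty, Nat.cast_zero]
    have : 0 ≤ ((x' : ℝ) - x + 1 - 1) / L := div_nonneg (by linarith) hLpos.le
    linarith
  · set i0 := I.min' hne
    set i1 := I.max' hne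
    have h0 : i0 ∈ I := I.min'_mem hne
    have h1 : i1 ∈ I := I.max'_mem hne
    have hle : i0 ≤ i1 := I.min'_le _ h1
    have hsub : I ⊆ Icc i0 i1 := fun y hy => Finset.mem_Icc.2 ⟨I.min'_le _ hy, I.le_max' _ hy⟩
    have hc := Finset.card_le_card hsub
    rw [Nat.card_Icc] at hc
    rw [hI, Finset.mem_filter] at h0 h1
    obtain ⟨-, u0, hu0, e0⟩ := h0
    obtain ⟨-, u1, hu1, e1⟩ := h1
    rw [Finset.mem_Icc] at hu0 hu1
    have hg := gap b hb L i0 (i1 - i0)
    rw [show i0 + (i1 - i0) = i1 from by omega] at hg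
    have h3 : L * (i1 - i0) ≤ x' - x := by omega
    have h4 : (L : ℝ) * ((i1 - i0 : ℕ) : ℝ) ≤ x' - x := by
      have : ((L * (i1 - i0) : ℕ) : ℝ) ≤ ((x' - x : ℕ) : ℝ) := by exact_mod_cast h3
      rw [Nat.cast_sub hx] at this
      push_cast at this
      exact this
    have h5 : (I.card : ℝ) ≤ ((i1 - i0 : ℕ) : ℝ) + 1 := by
      have : I.card ≤ (i1 - i0) + 1 := by omega
      exact_mod_cast this
    rw [hcard]
    have h6 : ((i1 - i0 : ℕ) : ℝ) ≤ ((x' : ℝ) - x + 1 - 1) / L := by
      rw [le_div_iff₀ hLpos]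
      linarith
    linarith

lemma swap_hyp (n q x x' : ℕ) (hx : x ≤ x') (D : Finset ℕ) :
    ∑ u ∈ Icc x x' \ D, (((Gf n x x' (insert u D)).filter (fun p => p.2 ∈ Rg n q x x')).card : ℝ) ≤
      Bd n q x x' := by
  have h1 : ∀ u ∈ Icc x x' \ D,
      ((Gf n x x' (insert u D)).filter (fun p => p.2 ∈ Rg n q x x')).card ≤
      ∑ L ∈ Rg n q x x', ((range n).filter (fun i => ∑ t ∈ range L, sq D x' (i + t) +
        (u + ∑ v ∈ D ∩ Icc x x', v) = T x x')).card := by
    intro u hu
    rw [Finset.mem_sdiff, Finset.mem_Icc] at hu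
    rw [← Finset.card_sigma]
    apply Finset.card_le_card_of_injOn (fun p => (⟨p.2, p.1⟩ : (_ : ℕ) × ℕ))
    · rintro ⟨i, L⟩ hp
      rw [Finset.mem_coe] at hp
      unfold Gf at hp
      rw [Finset.mem_filter, Finset.mem_filter, Finset.mem_product, Finset.mem_Icc] at hp
      simp only at hp
      obtain ⟨⟨⟨h1, h2, h3⟩, h4, h5⟩, h6⟩ := hp
      rw [Finset.mem_coe, Finset.mem_sigma]
      simp only
      refine ⟨h6, ?_⟩
      rw [Finset.mem_filter]
      refine ⟨h1, ?_⟩
      have hs : ∀ j, sq (insert u D) x' j = sq D x' j := by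
        intro j
        apply sq_congr
        intro k hk
        rw [Finset.mem_insert]
        constructor
        · rintro (h | h)
          · omega
          · exact h
        · intro h; right; exact h
      have hsum : ∑ v ∈ insert u D ∩ Icc x x', v = u + ∑ v ∈ D ∩ Icc x x', v := by
        rw [Finset.insert_inter_of_mem (Finset.mem_Icc.2 hu.1), Finset.sum_insert]
        intro h
        exact hu.2 (Finset.mem_inter.1 h).1
      rw [hsum] at h5
      simp only [hs] at h5
      unfold T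
      exact h5
    · rintro ⟨i, L⟩ _ ⟨i2, L2⟩ _ h
      simp only [Sigma.mk.injEq, heq_eq_eq, Prod.mk.injEq] at h ⊢
      exact ⟨h.2, h.1⟩
  calc ∑ u ∈ Icc x x' \ D, (((Gf n x x' (insert u D)).filter (fun p => p.2 ∈ Rg n q x x')).card : ℝ)
      ≤ ∑ u ∈ Icc x x' \ D, ((∑ L ∈ Rg n q x x', ((range n).filter (fun i =>
        ∑ t ∈ range L, sq D x' (i + t) + (u + ∑ v ∈ D ∩ Icc x x', v) = T x x')).card : ℕ) : ℝ) := by
        apply Finset.sum_le_sum
        intro u hu
        exact_mod_cast h1 u hu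
    _ = ∑ L ∈ Rg n q x x', ((∑ u ∈ Icc x x' \ D, ((range n).filter (fun i =>
        ∑ t ∈ range L, sq D x' (i + t) + (u + ∑ v ∈ D ∩ Icc x x', v) = T x x')).card : ℕ) : ℝ) := by
        push_cast
        rw [Finset.sum_comm]
    _ ≤ Bd n q x x' := by
        unfold Bd
        apply Finset.sum_le_sum
        intro L hL
        unfold Rg at hL
        rw [Finset.mem_filter, Finset.mem_Icc] at hL
        refine le_trans ?_ (window (sq D x') (sq_strict D x') n L hL.1.1 x x'
          (∑ v ∈ D ∩ Icc x x', v) (T x x') hx)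
        rw [← Finset.card_sigma]
        have : (Finset.sigma (Icc x x' \ D) (fun u => (range n).filter (fun i =>
          ∑ t ∈ range L, sq D x' (i + t) + (u + ∑ v ∈ D ∩ Icc x x', v) = T x x'))).card ≤
          ((range n).filter (fun i => ∃ u ∈ Icc x x',
            ∑ t ∈ range L, sq D x' (i + t) + (u + ∑ v ∈ D ∩ Icc x x', v) = T x x')).card := by
          apply Finset.card_le_card_of_injOn (fun p => p.2)
          · rintro ⟨u, i⟩ hp
            rw [Finset.mem_coe, Finset.mem_sigma, Finset.mem_filter, Finset.mem_sdiff] at hp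
            simp only at hp
            rw [Finset.mem_coe, Finset.mem_filter]
            exact ⟨hp.2.1, u, hp.1.1, hp.2.2⟩
          · rintro ⟨u, i⟩ hp ⟨u2, i2⟩ hq h
            rw [Finset.mem_coe, Finset.mem_sigma, Finset.mem_filter] at hp hq
            simp only at hp hq h
            subst h
            have : u = u2 := by
              have e1 := hp.2.2
              have e2 := hq.2.2
              omega
            subst this
            rfl
        exact_mod_cast this

/-- the number of hits of relevant length -/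
noncomputable def GG (n q x x' : ℕ) (E : Finset ℕ) : ℝ :=
  (((Gf n x x' E).filter (fun p => p.2 ∈ Rg n q x x')).card : ℝ)

lemma expect1 (n q x x' : ℕ) (hx1 : 1 ≤ x) (hx : x ≤ x') (hxn : x' ≤ n) (ρ : ℝ)
    (h0 : 0 < ρ) (h1 : ρ < 1) :
    ∑ D ∈ (Icc 1 n).powerset, (if (D ∩ Icc x x').card = 0 then 0 else w ρ (Icc 1 n) D *
        GG n q x x' D) ≤
        Bd n q x x' / ((1 - ρ) * ((Icc x x').card + 1)) := by
  have hP : Icc x x' ⊆ Icc 1 n := Finset.Icc_subset_Icc hx1 hxn
  have hpos1 : 0 < 1 - ρ := by linarith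
  have hB0 : 0 ≤ Bd n q x x' := by
    have := swap_hyp n q x x' hx ∅
    refine le_trans ?_ this
    exact Finset.sum_nonneg (fun _ _ => Nat.cast_nonneg _)
  have hh : ∀ D ∈ (Icc 1 n).powerset, ∑ u ∈ Icc x x' \ D, GG n q x x' (insert u D) ≤
      Bd n q x x' := by
    intro D _
    have := swap_hyp n q x x' hx D
    unfold GG
    exact this
  have s1 := swap_bound ρ h0 h1 (Icc 1 n) (Icc x x') hP (GG n q x x') (Bd n q x x') hh
  have s2 := inv_exp ρ h0 h1 (Icc 1 n) (Icc x x') hP
  have s3 : Bd n q x x' * (ρ / (1 - ρ)) *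
      ∑ D ∈ (Icc 1 n).powerset, w ρ (Icc 1 n) D / ((D ∩ Icc x x').card + 1) ≤
      Bd n q x x' * (ρ / (1 - ρ)) * (1 / (ρ * ((Icc x x').card + 1))) :=
    mul_le_mul_of_nonneg_left s2 (by positivity)
  have s4 : Bd n q x x' * (ρ / (1 - ρ)) * (1 / (ρ * ((Icc x x').card + 1))) =
      Bd n q x x' / ((1 - ρ) * ((Icc x x').card + 1)) := by
    have h3 : ((Icc x x').card : ℝ) + 1 ≠ 0 := by positivity
    have h4 : ρ ≠ 0 := h0.ne'
    have h5 : 1 - ρ ≠ 0 := hpos1.ne'
    field_simp
  rw [s4] at s3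
  exact s1.trans s3

/-- expected number of hits for one interval -/
lemma expect (n q x x' : ℕ) (hq : 1 ≤ q) (hx1 : 1 ≤ x) (hx : x ≤ x') (hxn : x' ≤ n) (ρ : ℝ)
    (hρ : ρ = 1 / (4 : ℝ) ^ q) :
    ∑ D ∈ (Icc 1 n).powerset, w ρ (Icc 1 n) D * ((Gf n x x' D).card : ℝ) ≤
      Bd n q x x' / ((1 - ρ) * ((Icc x x').card + 1)) +
      (Icc x x').card * (1 - ρ) ^ (Icc x x').card + (Icc x x').card * (1 / 2) ^ (Icc x x').card := by
  have h4 : (4 : ℝ) ≤ 4 ^ q := by
    calc (4 : ℝ) = 4 ^ 1 := by norm_num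
      _ ≤ 4 ^ q := pow_le_pow_right₀ (by norm_num) hq
  have h4pos : (0 : ℝ) < 4 ^ q := by positivity
  have h0 : 0 < ρ := by rw [hρ]; positivity
  have h1 : ρ < 1 := by
    rw [hρ, div_lt_one h4pos]; linarith
  have hP : Icc x x' ⊆ Icc 1 n := Finset.Icc_subset_Icc hx1 hxn
  set P := Icc x x' with hPdef
  set U := Icc 1 n with hU
  set g := P.card with hg
  have hpt : ∀ D ∈ U.powerset, w ρ U D * ((Gf n x x' D).card : ℝ) ≤
      (if (D ∩ P).card = 0 then 0 else w ρ U D * GG n q x x' D) +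
      g * (w ρ U D * 0 ^ (D ∩ P).card) +
      g * ((w ρ U D * ((4 : ℝ) ^ q) ^ (D ∩ P).card) / 4 ^ g) := by
    intro D _
    have hw := w_nonneg ρ h0.le h1.le U D
    have hG : ((Gf n x x' D).card : ℝ) ≤ g := by
      rw [hg]; exact_mod_cast Gf_card_le n x x' D hx
    have ht2 : 0 ≤ (g : ℝ) * (w ρ U D * 0 ^ (D ∩ P).card) := by positivity
    have ht3 : 0 ≤ (g : ℝ) * ((w ρ U D * ((4 : ℝ) ^ q) ^ (D ∩ P).card) / 4 ^ g) := by positivity
    by_cases hc : (D ∩ P).card = 0
    · rw [if_pos hc]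
      have : (g : ℝ) * (w ρ U D * 0 ^ (D ∩ P).card) = g * w ρ U D := by rw [hc]; simp
      rw [this]
      have := mul_le_mul_of_nonneg_left hG hw
      linarith
    · rw [if_neg hc]
      by_cases hq2 : q * (D ∩ P).card < g
      · have hfil : (Gf n x x' D).filter (fun p => p.2 ∈ Rg n q x x') = Gf n x x' D := by
          apply Finset.filter_true_of_mem
          exact Gf_range n q x x' D hx hq2
        unfold GG
        rw [hfil]
        linarith
      · push Not at hq2
        have h6 : (4 : ℝ) ^ g ≤ ((4 : ℝ) ^ q) ^ (D ∩ P).card := by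
          rw [← pow_mul]
          exact pow_le_pow_right₀ (by norm_num) hq2
        have h7 : (g : ℝ) * w ρ U D ≤ g * ((w ρ U D * ((4 : ℝ) ^ q) ^ (D ∩ P).card) / 4 ^ g) := by
          apply mul_le_mul_of_nonneg_left _ (Nat.cast_nonneg _)
          rw [le_div_iff₀ (by positivity)]
          exact mul_le_mul_of_nonneg_left h6 hw
        have h8 := mul_le_mul_of_nonneg_left hG hw
        have h9 : 0 ≤ w ρ U D * GG n q x x' D := by unfold GG; positivity
        linarith
  refine (Finset.sum_le_sum hpt).trans ?_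
  rw [Finset.sum_add_distrib, Finset.sum_add_distrib, ← Finset.mul_sum, ← Finset.mul_sum,
    ← Finset.sum_div, gen ρ 0 U P hP, gen ρ (4 ^ q) U P hP]
  have m1 := expect1 n q x x' hx1 hx hxn ρ h0 h1
  have m2 : (g : ℝ) * (ρ * 0 + (1 - ρ)) ^ g = g * (1 - ρ) ^ g := by simp
  have m3 : (g : ℝ) * ((ρ * 4 ^ q + (1 - ρ)) ^ g / 4 ^ g) ≤ g * (1 / 2) ^ g := by
    apply mul_le_mul_of_nonneg_left _ (Nat.cast_nonneg _)
    rw [← div_pow]
    have h5 : ρ * 4 ^ q = 1 := by rw [hρ]; field_simp
    rw [h5]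
    apply pow_le_pow_left₀
    · linarith
    · linarith
  rw [m2]
  exact add_le_add (add_le_add m1 le_rfl) m3

end Pool.Agent.TH437.CS
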