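import Mathlib
import Pool.Agent.TH437.CS.Expect

set_option autoImplicit false
set_option linter.unusedVariables false
set_option linter.unusedSimpArgs false
set_option linter.unusedSectionVars false
set_option maxHeartbeats 400000
open Classical Finset

namespace Pool.Agent.TH437.CS

lemma harm (l b : ℕ) (h1 : 1 ≤ l) (h : l ≤ b) :
    ∑ L ∈ Icc l b, (1 : ℝ) / L ≤ 1 / l + Real.log (b / l) := by
  have hl : (0 : ℝ) < l := by exact_mod_cast h1
  induction b, h using Nat.le_induction with
  | base => simp [hl.ne']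
  | succ b hb ih =>
    have hbpos : (0 : ℝ) < b := by exact_mod_cast (by omega : 0 < b)
    rw [Finset.sum_Icc_succ_top (by omega)]
    have h2 : (1 : ℝ) / ((b + 1 : ℕ) : ℝ) ≤ Real.log (((b + 1 : ℕ) : ℝ) / b) := by
      have := Real.one_sub_inv_le_log_of_pos (x := ((b + 1 : ℕ) : ℝ) / b) (by positivity)
      refine le_trans (le_of_eq ?_) this
      push_cast
      field_simp
      ring
    have h3 : Real.log (((b + 1 : ℕ) : ℝ) / l) =
        Real.log ((b : ℝ) / l) + Real.log (((b + 1 : ℕ) : ℝ) / b) := by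
      rw [← Real.log_mul (by positivity) (by positivity)]
      congr 1
      field_simp
    rw [h3]
    linarith

lemma sumS (S : Finset ℕ) (A B : ℝ) (hA : 0 < A) (hAB : A ≤ B)
    (hS : ∀ L ∈ S, 1 ≤ L ∧ A ≤ (L : ℝ) ∧ (L : ℝ) ≤ B) :
    ∑ L ∈ S, (1 : ℝ) / L ≤ 1 / A + Real.log (B / A) ∧ (S.card : ℝ) ≤ B - A + 1 := by
  rcases S.eq_empty_or_nonempty with he | hne
  · rw [he]
    simp only [Finset.sum_empty, Finset.card_empty, Nat.cast_zero]
    constructor
    · have h1 : 0 ≤ Real.log (B / A) := Real.log_nonneg (by rw [le_div_iff₀ hA]; linarith)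
      have h2 : 0 < 1 / A := by positivity
      linarith
    · linarith
  · set l := S.min' hne
    set b := S.max' hne
    have hl := hS l (S.min'_mem hne)
    have hb := hS b (S.max'_mem hne)
    have hlb : l ≤ b := S.min'_le _ (S.max'_mem hne)
    have hsub : S ⊆ Icc l b := fun y hy => Finset.mem_Icc.2 ⟨S.min'_le _ hy, S.le_max' _ hy⟩
    have hlpos : (0 : ℝ) < l := by exact_mod_cast hl.1
    have hbpos : (0 : ℝ) < b := by exact_mod_cast hb.1
    constructor
    · calc ∑ L ∈ S, (1 : ℝ) / L ≤ ∑ L ∈ Icc l b, (1 : ℝ) / L :=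
            Finset.sum_le_sum_of_subset_of_nonneg hsub (fun _ _ _ => by positivity)
        _ ≤ 1 / l + Real.log (b / l) := harm l b hl.1 hlb
        _ ≤ 1 / A + Real.log (B / A) := by
            apply add_le_add
            · exact one_div_le_one_div_of_le hA hl.2.1
            · apply Real.log_le_log (by positivity)
              apply div_le_div₀ (by linarith) hb.2.2 hA hl.2.1
    · have h1 := Finset.card_le_card hsub
      rw [Nat.card_Icc] at h1
      have h2 : (S.card : ℝ) ≤ b - l + 1 := by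
        have : S.card ≤ b - l + 1 := by omega
        have h3 : (S.card : ℝ) ≤ ((b - l + 1 : ℕ) : ℝ) := by exact_mod_cast this
        rw [Nat.cast_add, Nat.cast_sub hlb] at h3
        push_cast at h3
        exact h3
      linarith [hl.2.1, hb.2.2]

lemma perpair (n q x y : ℕ) (hq : 3 ≤ q) (hx1 : 1 ≤ x) (hxy : x ≤ y) (hyn : y ≤ n) (α : ℝ)
    (hα : α = 1 - 2 / q) :
    Bd n q x y / ((Icc x y).card + 1) ≤
      2 * n / (α * y) * (1 / ((y + 1 - x : ℕ) : ℝ)) + Real.log (n / y) + Real.log (1 / α) +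
      (x + y) / 2 * (1 / y - α / n) + 1 / ((y + 1 - x : ℕ) : ℝ) := by
  have hq' : (3 : ℝ) ≤ q := by exact_mod_cast hq
  have hα0 : 0 < α := by
    rw [hα]
    have : (2 : ℝ) / q < 1 := by rw [div_lt_one (by linarith)]; linarith
    linarith
  have hα1 : α < 1 := by
    rw [hα]
    have : (0 : ℝ) < 2 / q := by positivity
    linarith
  have hy1 : 1 ≤ y := le_trans hx1 hxy
  have hn1 : 1 ≤ n := le_trans hy1 hyn
  have hy : (0 : ℝ) < y := by exact_mod_cast hy1
  have hn : (0 : ℝ) < n := by exact_mod_cast hn1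
  have hxr : (0 : ℝ) < x := by exact_mod_cast hx1
  have hynr : (y : ℝ) ≤ n := by exact_mod_cast hyn
  have hgc : (Icc x y).card = y + 1 - x := Nat.card_Icc _ _
  set g : ℝ := ((y + 1 - x : ℕ) : ℝ) with hg
  have hg1 : 1 ≤ g := by
    rw [hg]; exact_mod_cast (by omega : 1 ≤ y + 1 - x)
  have hT : (T x y : ℝ) = g * (x + y) / 2 := by
    have := T_formula x y hxy
    have h2 : (2 : ℝ) * T x y = g * (x + y) := by
      rw [hg]; exact_mod_cast this
    linarith
  set t : ℝ := (T x y : ℝ) with ht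
  have ht0 : 0 < t := by rw [hT]; positivity
  have hA : 0 < α * t / n := by positivity
  have hAB : α * t / n ≤ t / y := by
    rw [div_le_div_iff₀ hn hy]
    have : α * t ≤ t := by nlinarith
    nlinarith
  obtain ⟨h1, h2⟩ := sumS (Rg n q x y) (α * t / n) (t / y) hA hAB (by
    intro L hL
    unfold Rg at hL
    rw [Finset.mem_filter, Finset.mem_Icc] at hL
    obtain ⟨⟨l1, l2⟩, l3, l4⟩ := hL
    refine ⟨l1, ?_, ?_⟩
    · rw [div_le_iff₀ hn, hα]
      have h3 : (q : ℝ) * t ≤ q * (L * n) + 2 * t := by rw [ht]; exact_mod_cast l4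
      have hqpos : (0 : ℝ) < q := by linarith
      have h4 : (q : ℝ) * ((1 - 2 / q) * t) ≤ q * (L * n) := by
        have : (q : ℝ) * ((1 - 2 / q) * t) = q * t - 2 * t := by field_simp
        rw [this]; linarith
      exact le_of_mul_le_mul_left h4 hqpos
    · rw [le_div_iff₀ hy, ht]
      exact_mod_cast l3)
  have hBd : Bd n q x y = (g - 1) * ∑ L ∈ Rg n q x y, (1 : ℝ) / L + (Rg n q x y).card := by
    unfold Bd
    rw [hgc, ← hg, Finset.sum_add_distrib, Finset.mul_sum]
    congr 1
    · apply Finset.sum_congr rfl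
      intro L _
      ring
    · simp
  rw [hBd, hgc, ← hg, add_div]
  have hS0 : 0 ≤ ∑ L ∈ Rg n q x y, (1 : ℝ) / L := Finset.sum_nonneg (fun _ _ => by positivity)
  have h3 : (g - 1) * ∑ L ∈ Rg n q x y, (1 : ℝ) / L / (g + 1) ≤ ∑ L ∈ Rg n q x y, (1 : ℝ) / L := by
    rw [← Finset.sum_div, ← mul_div_assoc, div_le_iff₀ (by linarith)]
    nlinarith
  have h3' : (g - 1) * ∑ L ∈ Rg n q x y, (1 : ℝ) / L / (g + 1) =
      ((g - 1) * ∑ L ∈ Rg n q x y, (1 : ℝ) / L) / (g + 1) := by
    rw [← Finset.sum_div, mul_div_assoc]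
  rw [h3'] at h3
  have h4 : ((Rg n q x y).card : ℝ) / (g + 1) ≤ (t / y - α * t / n) / g + 1 / g := by
    rw [← add_div]
    apply div_le_div₀
    · have : 0 ≤ t / y - α * t / n := by linarith
      linarith
    · exact h2
    · linarith
    · linarith
  have h5 : (t / y - α * t / n) / g = (x + y) / 2 * (1 / y - α / n) := by
    rw [hT]
    field_simp
  have h6 : Real.log (t / y / (α * t / n)) = Real.log (n / y) + Real.log (1 / α) := by
    rw [← Real.log_mul (by positivity) (by positivity)]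
    congr 1
    field_simp
  have h7 : 1 / (α * t / n) ≤ 2 * n / (α * y) * (1 / g) := by
    rw [hT]
    have e1 : 1 / (α * (g * (x + y) / 2) / n) = 2 * n / (α * g * (x + y)) := by
      field_simp
    have e2 : 2 * (n : ℝ) / (α * y) * (1 / g) = 2 * n / (α * g * y) := by
      field_simp
    rw [e1, e2]
    apply div_le_div_of_nonneg_left (by positivity) (by positivity)
    have : 0 < α * g := by positivity
    nlinarith
  rw [h5] at h4
  rw [h6] at h1
  linarith

lemma klogk (n : ℕ) : ∑ y ∈ Icc 1 n, (y : ℝ) * Real.log (n / y) ≤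
    (n : ℝ) ^ 2 / 4 + n / 2 * Real.log n := by
  have key : ∀ m : ℕ, (m : ℝ) ^ 2 / 2 * Real.log m - (m : ℝ) ^ 2 / 4 ≤
      ∑ y ∈ Icc 1 m, (y : ℝ) * Real.log y := by
    intro m
    induction m with
    | zero => simp
    | succ m ih =>
      rw [Finset.sum_Icc_succ_top (by omega)]
      rcases Nat.eq_zero_or_pos m with rfl | hm
      · simp
      · have hmr : (0 : ℝ) < m := by exact_mod_cast hm
        have hlog : Real.log ((m + 1 : ℕ) : ℝ) ≤ Real.log m + 1 / m := by
          have h1 : Real.log (((m + 1 : ℕ) : ℝ) / m) ≤ ((m + 1 : ℕ) : ℝ) / m - 1 :=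
            Real.log_le_sub_one_of_pos (by positivity)
          rw [Real.log_div (by positivity) (by positivity)] at h1
          have h2 : ((m + 1 : ℕ) : ℝ) / m - 1 = 1 / m := by
            push_cast; field_simp; ring
          linarith
        have hl0 : 0 ≤ Real.log ((m + 1 : ℕ) : ℝ) := Real.log_nonneg (by push_cast; linarith)
        have hlm : Real.log ((m + 1 : ℕ) : ℝ) - 1 / m ≤ Real.log m := by linarith
        have h3 : (m : ℝ) ^ 2 / 2 * (Real.log ((m + 1 : ℕ) : ℝ) - 1 / m) ≤
            (m : ℝ) ^ 2 / 2 * Real.log m := mul_le_mul_of_nonneg_left hlm (by positivity)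
        have h4 : (m : ℝ) ^ 2 / 2 * (Real.log ((m + 1 : ℕ) : ℝ) - 1 / m) =
            (m : ℝ) ^ 2 / 2 * Real.log ((m + 1 : ℕ) : ℝ) - m / 2 := by
          field_simp
        push_cast at *
        nlinarith
  rcases Nat.eq_zero_or_pos n with rfl | hn
  · simp
  have hnr : (0 : ℝ) < n := by exact_mod_cast hn
  have h1 : ∑ y ∈ Icc 1 n, (y : ℝ) * Real.log (n / y) =
      (∑ y ∈ Icc 1 n, (y : ℝ)) * Real.log n - ∑ y ∈ Icc 1 n, (y : ℝ) * Real.log y := by
    rw [Finset.sum_mul, ← Finset.sum_sub_distrib]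
    apply Finset.sum_congr rfl
    intro y hy
    rw [Finset.mem_Icc] at hy
    have hyr : (0 : ℝ) < y := by exact_mod_cast hy.1
    rw [Real.log_div hnr.ne' hyr.ne']
    ring
  have h2 : ∑ y ∈ Icc 1 n, (y : ℝ) = n * (n + 1) / 2 := by
    have := T_formula 1 n hn
    unfold T at this
    have h3 : (2 : ℝ) * ∑ y ∈ Icc 1 n, (y : ℝ) = n * (1 + n) := by
      have h4 : ((2 * ∑ v ∈ Icc 1 n, v : ℕ) : ℝ) = (((n + 1 - 1) * (1 + n) : ℕ) : ℝ) := by
        exact_mod_cast this
      push_cast at h4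
      exact h4
    linarith
  rw [h1, h2]
  have := key n
  nlinarith

end Pool.Agent.TH437.CS
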