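import Mathlib
import Pool.Agent.TH437.CS.Asym

set_option autoImplicit false
set_option linter.unusedVariables false
set_option linter.unusedSimpArgs false
set_option linter.unusedSectionVars false
set_option maxHeartbeats 2000000
open Classical Finset

namespace Pool.Agent.TH437.CS

/-- pairs `1 ≤ x ≤ y ≤ n` -/
def Pn (n : ℕ) : Finset (ℕ × ℕ) := ((Icc 1 n) ×ˢ (Icc 1 n)).filter (fun p => p.1 ≤ p.2)

lemma sum_Pn (n : ℕ) (f : ℕ → ℕ → ℝ) :
    ∑ p ∈ Pn n, f p.1 p.2 = ∑ y ∈ Icc 1 n, ∑ x ∈ Icc 1 y, f x y := by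
  unfold Pn
  rw [Finset.sum_filter, Finset.sum_product_right]
  apply Finset.sum_congr rfl
  intro y hy
  rw [← Finset.sum_filter]
  apply Finset.sum_congr _ (fun _ _ => rfl)
  ext x
  rw [Finset.mem_Icc] at hy
  simp only [Finset.mem_filter, Finset.mem_Icc]
  omega

lemma flip (y : ℕ) (f : ℕ → ℝ) : ∑ x ∈ Icc 1 y, f (y + 1 - x) = ∑ g ∈ Icc 1 y, f g := by
  apply Finset.sum_nbij' (fun x => y + 1 - x) (fun x => y + 1 - x)
  · intro x hx
    rw [Finset.mem_Icc] at hx ⊢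
    omega
  · intro x hx
    rw [Finset.mem_Icc] at hx ⊢
    omega
  · intro x hx
    rw [Finset.mem_Icc] at hx
    omega
  · intro x hx
    rw [Finset.mem_Icc] at hx
    omega
  · intro x hx
    rfl

lemma sum_id (n : ℕ) : ∑ y ∈ Icc 1 n, (y : ℝ) = n * (n + 1) / 2 := by
  induction n with
  | zero => simp
  | succ n ih => rw [Finset.sum_Icc_succ_top (by omega), ih]; push_cast; ring

lemma sum_sq (n : ℕ) : (n : ℝ) ^ 3 / 3 ≤ ∑ y ∈ Icc 1 n, (y : ℝ) ^ 2 := by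
  induction n with
  | zero => simp
  | succ n ih =>
    rw [Finset.sum_Icc_succ_top (by omega)]
    push_cast
    have : (0 : ℝ) ≤ n := Nat.cast_nonneg _
    nlinarith

lemma harm1 (y n : ℕ) (hy : 1 ≤ y) (hyn : y ≤ n) :
    ∑ g ∈ Icc 1 y, (1 : ℝ) / g ≤ 1 + Real.log n := by
  have h1 := harm 1 y le_rfl hy
  have hyr : (0 : ℝ) < y := by exact_mod_cast hy
  have h2 : Real.log ((y : ℝ) / (1 : ℕ)) ≤ Real.log n := by
    apply Real.log_le_log (by positivity)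
    push_cast
    rw [div_one]
    exact_mod_cast hyn
  simp only [Nat.cast_one, div_one] at h1 h2
  linarith

lemma total (n q : ℕ) (hn : 1 ≤ n) (hq : 3 ≤ q) (α : ℝ) (hα : α = 1 - 2 / q) :
    ∑ p ∈ Pn n, Bd n q p.1 p.2 / ((Icc p.1 p.2).card + 1) ≤
      (n : ℝ) ^ 2 * (5 / 8 - α / 4 + Real.log (1 / α) / 2) +
      (2 * n * (1 + Real.log n) ^ 2 / α + n / 2 * Real.log n + n / 2 * Real.log (1 / α) +
        5 / 8 * n + n * (1 + Real.log n)) := by
  have hq' : (3 : ℝ) ≤ q := by exact_mod_cast hq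
  have hα0 : 0 < α := by
    rw [hα]
    have : (2 : ℝ) / q < 1 := by rw [div_lt_one (by linarith)]; linarith
    linarith
  have hnr : (1 : ℝ) ≤ n := by exact_mod_cast hn
  have hlog : 0 ≤ Real.log n := Real.log_nonneg hnr
  set h : ℝ := 1 + Real.log n with hh
  set la : ℝ := Real.log (1 / α) with hla
  rw [sum_Pn n (fun x y => Bd n q x y / ((Icc x y).card + 1))]
  have inner : ∀ y ∈ Icc 1 n, ∑ x ∈ Icc 1 y, Bd n q x y / ((Icc x y).card + 1) ≤
      2 * n * h / α * (1 / y) + y * Real.log (n / y) + y * la +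
        ((3 * y + 1) / 4 - 3 * α / (4 * n) * y ^ 2) + h := by
    intro y hy
    rw [Finset.mem_Icc] at hy
    have hyr : (0 : ℝ) < y := by exact_mod_cast hy.1
    have hnpos : (0 : ℝ) < n := by linarith
    have s1 : ∑ x ∈ Icc 1 y, Bd n q x y / ((Icc x y).card + 1) ≤
        ∑ x ∈ Icc 1 y, (2 * n / (α * y) * (1 / ((y + 1 - x : ℕ) : ℝ)) + Real.log (n / y) + la +
      ((x : ℝ) + y) / 2 * (1 / y - α / n) + 1 / ((y + 1 - x : ℕ) : ℝ)) := by
      apply Finset.sum_le_sum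
      intro x hx
      rw [Finset.mem_Icc] at hx
      exact perpair n q x y hq hx.1 hx.2 hy.2 α hα
    refine s1.trans ?_
    rw [Finset.sum_add_distrib, Finset.sum_add_distrib, Finset.sum_add_distrib,
      Finset.sum_add_distrib, ← Finset.mul_sum, ← Finset.sum_mul, flip y (fun g => 1 / (g : ℝ)),
      Finset.sum_const, Finset.sum_const, Nat.card_Icc, nsmul_eq_mul, nsmul_eq_mul]
    have e1 := harm1 y n hy.1 hy.2
    rw [← hh] at e1
    have e2 : ∑ x ∈ Icc 1 y, ((x : ℝ) + y) / 2 = (3 * y ^ 2 + y) / 4 := by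
      rw [← Finset.sum_div, Finset.sum_add_distrib, sum_id, Finset.sum_const, Nat.card_Icc,
        nsmul_eq_mul]
      rw [show y + 1 - 1 = y from by omega]
      ring
    rw [e2, show y + 1 - 1 = y from by omega]
    have e3 : 2 * (n : ℝ) / (α * y) * ∑ g ∈ Icc 1 y, (1 : ℝ) / g ≤ 2 * n * h / α * (1 / y) := by
      calc 2 * (n : ℝ) / (α * y) * ∑ g ∈ Icc 1 y, (1 : ℝ) / g ≤ 2 * (n : ℝ) / (α * y) * h :=
            mul_le_mul_of_nonneg_left e1 (by positivity)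
        _ = _ := by field_simp
    have e4 : (3 * (y : ℝ) ^ 2 + y) / 4 * (1 / y - α / n) ≤
        (3 * y + 1) / 4 - 3 * α / (4 * n) * y ^ 2 := by
      have : (3 * (y : ℝ) ^ 2 + y) / 4 * (1 / y - α / n) =
          (3 * y + 1) / 4 - 3 * α / (4 * n) * y ^ 2 - α * y / (4 * n) := by
        field_simp
        ring
      rw [this]
      have : 0 ≤ α * y / (4 * n) := by positivity
      linarith
    linarith
  refine (Finset.sum_le_sum inner).trans ?_
  rw [Finset.sum_add_distrib, Finset.sum_add_distrib, Finset.sum_add_distrib,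
    Finset.sum_add_distrib, ← Finset.mul_sum, ← Finset.sum_mul, Finset.sum_sub_distrib,
    ← Finset.mul_sum, Finset.sum_const, Nat.card_Icc, nsmul_eq_mul, sum_id,
    show n + 1 - 1 = n from by omega]
  have f1 := harm1 n n hn le_rfl
  rw [← hh] at f1
  have f2 := klogk n
  have f3 : ∑ y ∈ Icc 1 n, (3 * (y : ℝ) + 1) / 4 = 3 * n * (n + 1) / 8 + n / 4 := by
    rw [← Finset.sum_div, Finset.sum_add_distrib, ← Finset.mul_sum, sum_id, Finset.sum_const,
      Nat.card_Icc, nsmul_eq_mul, show n + 1 - 1 = n from by omega]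
    ring
  have f4 := sum_sq n
  have hnpos : (0 : ℝ) < n := by linarith
  have hhpos : 0 ≤ h := by linarith
  have f5 : 2 * (n : ℝ) * h / α * ∑ y ∈ Icc 1 n, (1 : ℝ) / y ≤ 2 * n * h ^ 2 / α := by
    calc 2 * (n : ℝ) * h / α * ∑ y ∈ Icc 1 n, (1 : ℝ) / y ≤ 2 * (n : ℝ) * h / α * h :=
          mul_le_mul_of_nonneg_left f1 (by positivity)
      _ = _ := by ring
  have f6 : 3 * α / (4 * n) * ((n : ℝ) ^ 3 / 3) ≤
      3 * α / (4 * n) * ∑ y ∈ Icc 1 n, (y : ℝ) ^ 2 :=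
    mul_le_mul_of_nonneg_left f4 (by positivity)
  have f7 : 3 * α / (4 * n) * ((n : ℝ) ^ 3 / 3) = α * n ^ 2 / 4 := by field_simp
  rw [f7] at f6
  rw [f3]
  nlinarith

lemma geo (r : ℝ) (h0 : 0 ≤ r) (h1 : r < 1) : ∃ K : ℝ, 0 ≤ K ∧ ∀ n : ℕ,
    ∑ p ∈ Pn n, ((Icc p.1 p.2).card : ℝ) * r ^ (Icc p.1 p.2).card ≤ n * K := by
  have hs : Summable (fun g : ℕ => (g : ℝ) ^ 1 * r ^ g) :=
    summable_pow_mul_geometric_of_norm_lt_one 1 (by rw [Real.norm_of_nonneg h0]; exact h1)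
  refine ⟨∑' g : ℕ, (g : ℝ) ^ 1 * r ^ g, tsum_nonneg (fun g => by positivity), ?_⟩
  intro n
  rw [sum_Pn n (fun x y => ((Icc x y).card : ℝ) * r ^ (Icc x y).card)]
  calc ∑ y ∈ Icc 1 n, ∑ x ∈ Icc 1 y, ((Icc x y).card : ℝ) * r ^ (Icc x y).card
      ≤ ∑ y ∈ Icc 1 n, (∑' g : ℕ, (g : ℝ) ^ 1 * r ^ g) := by
        apply Finset.sum_le_sum
        intro y _
        have : ∑ x ∈ Icc 1 y, ((Icc x y).card : ℝ) * r ^ (Icc x y).card =
            ∑ g ∈ Icc 1 y, (g : ℝ) ^ 1 * r ^ g := by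
          rw [← flip y (fun g => (g : ℝ) ^ 1 * r ^ g)]
          apply Finset.sum_congr rfl
          intro x _
          rw [Nat.card_Icc, pow_one]
        rw [this]
        exact hs.sum_le_tsum _ (fun g _ => by positivity)
    _ = n * ∑' g : ℕ, (g : ℝ) ^ 1 * r ^ g := by simp

lemma coef (q : ℝ) (hq : 4 ≤ q) :
    (1 + 1 / (2 * q)) * (3 / 8 + 5 / (2 * q)) ≤ 3 / 8 + 3 / q := by
  have hqpos : 0 < q := by linarith
  set v : ℝ := 1 / q with hv
  have hv0 : 0 < v := by positivity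
  have hv1 : v ≤ 1 / 4 := one_div_le_one_div_of_le (by norm_num) hq
  have e1 : 1 / (2 * q) = v / 2 := by rw [hv]; field_simp
  have e2 : 5 / (2 * q) = 5 / 2 * v := by rw [hv]; field_simp
  have e3 : 3 / q = 3 * v := by rw [hv]; field_simp
  rw [e1, e2, e3]
  nlinarith

lemma fin_alg (q n s K1 K2 : ℝ) (hq : 4 ≤ q) (hn : 1 ≤ n) (hs2 : s ^ 2 = n) (hs1 : 1 ≤ s)
    (h1 : 0 ≤ K1) (h2 : 0 ≤ K2) (hsq : q * (144 + K1 + K2) ≤ s) :
    144 * n * s + n * K1 + n * K2 ≤ 1 / q * n ^ 2 := by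
  have hqpos : 0 < q := by linarith
  have e1 : 144 * s + K1 + K2 ≤ (144 + K1 + K2) * s := by nlinarith
  have e2 : (144 + K1 + K2) * s ≤ 1 / q * (s * s) := by
    have h3 : (144 + K1 + K2) ≤ 1 / q * s := by
      rw [one_div, inv_mul_eq_div, le_div_iff₀ hqpos]
      linarith
    have := mul_le_mul_of_nonneg_right h3 (by linarith : (0:ℝ) ≤ s)
    linarith
  have e3 : s * s = n := by rw [← hs2]; ring
  rw [e3] at e2
  have e4 : 144 * s + K1 + K2 ≤ 1 / q * n := e1.trans e2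
  have e5 := mul_le_mul_of_nonneg_left e4 (by linarith : (0:ℝ) ≤ n)
  linarith

/-- the mean number of separated coincidences -/
lemma mean (q : ℕ) (hq : 4 ≤ q) (ρ : ℝ) (hρ : ρ = 1 / (4 : ℝ) ^ q) : ∃ n0 : ℕ, ∀ n ≥ n0,
    ∑ D ∈ (Icc 1 n).powerset, w ρ (Icc 1 n) D * (∑ p ∈ Pn n, ((Gf n p.1 p.2 D).card : ℝ)) ≤
      (3 / 8 + 6 / q) * (n : ℝ) ^ 2 := by
  have hq' : (4 : ℝ) ≤ q := by exact_mod_cast hq
  have hqpos : (0 : ℝ) < q := by linarith
  have h4q : (4 : ℝ) * q ≤ 4 ^ q := by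
    have : ∀ m : ℕ, 4 * (m + 1) ≤ 4 ^ (m + 1) := by
      intro m
      induction m with
      | zero => simp
      | succ m ih => rw [pow_succ]; omega
    have h1 := this (q - 1)
    rw [Nat.sub_add_cancel (by omega)] at h1
    exact_mod_cast h1
  have hρ0 : 0 < ρ := by rw [hρ]; positivity
  have hρq : ρ ≤ 1 / (4 * q) := by
    rw [hρ]; exact one_div_le_one_div_of_le (by positivity) h4q
  have hρ1 : ρ ≤ 1 / 16 := by
    refine hρq.trans ?_
    exact one_div_le_one_div_of_le (by norm_num) (by linarith)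
  obtain ⟨K1, hK10, hK1⟩ := geo (1 - ρ) (by linarith) (by linarith)
  obtain ⟨K2, hK20, hK2⟩ := geo (1 / 2) (by norm_num) (by norm_num)
  obtain ⟨N, hN⟩ := exists_nat_gt ((q * (144 + K1 + K2)) ^ 2)
  refine ⟨N + 1, ?_⟩
  intro n hn
  have hn1 : 1 ≤ n := by omega
  have hnr : (1 : ℝ) ≤ n := by exact_mod_cast hn1
  have hNn : (q * (144 + K1 + K2)) ^ 2 < (n : ℝ) := by
    have : (N : ℝ) ≤ n := by exact_mod_cast (by omega : N ≤ n)
    linarith
  set s : ℝ := Real.sqrt n with hs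
  have hs2 : s ^ 2 = n := Real.sq_sqrt (by linarith)
  have hs1 : 1 ≤ s := by rw [hs]; exact Real.one_le_sqrt.2 hnr
  have hsq : q * (144 + K1 + K2) ≤ s := by
    rw [hs]; exact Real.le_sqrt_of_sq_le hNn.le
  set α : ℝ := 1 - 2 / q with hα
  have h2q : 2 / (q : ℝ) ≤ 1 / 2 := by rw [div_le_div_iff₀ hqpos (by norm_num)]; linarith
  have hαh : 1 / 2 ≤ α := by rw [hα]; linarith
  have hα0 : 0 < α := by linarith
  have hla : Real.log (1 / α) ≤ 4 / q := by
    have h1 := Real.log_le_sub_one_of_pos (x := 1 / α) (by positivity)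
    have h2 : 1 / α - 1 = (2 / q) / α := by
      have e : 2 / (q : ℝ) = 1 - α := by rw [hα]; ring
      rw [e, sub_div, div_self hα0.ne']
    have h3 : (2 / (q : ℝ)) / α ≤ 4 / q := by
      rw [div_le_iff₀ hα0]
      have : 4 / (q : ℝ) * α ≥ 4 / q * (1 / 2) := mul_le_mul_of_nonneg_left hαh (by positivity)
      have e : 4 / (q : ℝ) * (1 / 2) = 2 / q := by ring
      linarith
    linarith
  have hla0 : 0 ≤ Real.log (1 / α) := by
    apply Real.log_nonneg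
    rw [le_div_iff₀ hα0, hα]
    have : 0 < 2 / (q : ℝ) := by positivity
    linarith
  -- bound for log n
  have hlogn : Real.log n ≤ 4 * Real.sqrt s - 4 := by
    have e1 : Real.log n = 4 * Real.log (Real.sqrt s) := by
      have a : Real.log (Real.sqrt s) = Real.log s / 2 := Real.log_sqrt (by linarith)
      have b : Real.log s = Real.log n / 2 := by rw [hs]; exact Real.log_sqrt (by linarith)
      rw [a, b]; ring
    have e2 := Real.log_le_sub_one_of_pos (x := Real.sqrt s) (Real.sqrt_pos.2 (by linarith))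
    linarith
  have hss : Real.sqrt s ^ 2 = s := Real.sq_sqrt (by linarith)
  have hss1 : 1 ≤ Real.sqrt s := Real.one_le_sqrt.2 hs1
  have hh : 1 + Real.log n ≤ 4 * Real.sqrt s := by linarith
  have hlog0 : 0 ≤ Real.log n := Real.log_nonneg hnr
  have hh2 : (1 + Real.log n) ^ 2 ≤ 16 * s := by
    have : (1 + Real.log n) ^ 2 ≤ (4 * Real.sqrt s) ^ 2 :=
      pow_le_pow_left₀ (by linarith) hh 2
    rw [mul_pow, hss] at this
    linarith
  have hsle : Real.sqrt s ≤ s := by nlinarith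
  have hE : 2 * n * (1 + Real.log n) ^ 2 / α + n / 2 * Real.log n + n / 2 * Real.log (1 / α) +
        5 / 8 * n + n * (1 + Real.log n) ≤ 72 * n * s := by
    have a1 : 2 * n * (1 + Real.log n) ^ 2 / α ≤ 64 * n * s := by
      rw [div_le_iff₀ hα0]
      have b1 : 2 * (n : ℝ) * (1 + Real.log n) ^ 2 ≤ 2 * n * (16 * s) :=
        mul_le_mul_of_nonneg_left hh2 (by linarith)
      have b2 : 64 * (n : ℝ) * s * (1 / 2) ≤ 64 * n * s * α :=
        mul_le_mul_of_nonneg_left hαh (by positivity)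
      linarith
    have a2 : n / 2 * Real.log n ≤ 2 * n * s := by
      have : Real.log n ≤ 4 * s := by linarith
      have := mul_le_mul_of_nonneg_left this (by linarith : (0:ℝ) ≤ n / 2)
      linarith
    have a3 : n / 2 * Real.log (1 / α) ≤ n / 2 * 1 := by
      apply mul_le_mul_of_nonneg_left _ (by linarith)
      have : 4 / (q : ℝ) ≤ 1 := by rw [div_le_one hqpos]; exact hq'
      linarith
    have a4 : n * (1 + Real.log n) ≤ 4 * n * s := by
      have : 1 + Real.log n ≤ 4 * s := by linarith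
      have := mul_le_mul_of_nonneg_left this (by linarith : (0:ℝ) ≤ n)
      linarith
    have a5 : (n : ℝ) ≤ n * s := by nlinarith
    linarith
  have htot := total n q hn1 (by omega) α hα
  -- main term coefficient
  have hc : 5 / 8 - α / 4 + Real.log (1 / α) / 2 ≤ 3 / 8 + 5 / (2 * q) := by
    have e : 5 / 8 - α / 4 = 3 / 8 + 1 / (2 * q) := by
      rw [hα]; field_simp; ring
    rw [e]
    have e2 : Real.log (1 / α) / 2 ≤ 2 / q := by
      have : (4 / (q:ℝ)) / 2 = 2 / q := by ring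
      linarith
    have e3 : (1 : ℝ) / (2 * q) + 2 / q = 5 / (2 * q) := by field_simp; ring
    linarith
  have hn2 : (0 : ℝ) ≤ (n : ℝ) ^ 2 := by positivity
  have hS : ∑ p ∈ Pn n, Bd n q p.1 p.2 / ((Icc p.1 p.2).card + 1) ≤
      (n : ℝ) ^ 2 * (3 / 8 + 5 / (2 * q)) + 72 * n * s := by
    have := mul_le_mul_of_nonneg_left hc hn2
    linarith
  -- swap the sums
  have hsw : ∑ D ∈ (Icc 1 n).powerset, w ρ (Icc 1 n) D *
      (∑ p ∈ Pn n, ((Gf n p.1 p.2 D).card : ℝ)) =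
      ∑ p ∈ Pn n, ∑ D ∈ (Icc 1 n).powerset, w ρ (Icc 1 n) D * ((Gf n p.1 p.2 D).card : ℝ) := by
    simp only [Finset.mul_sum]
    rw [Finset.sum_comm]
  rw [hsw]
  have hpp : ∀ p ∈ Pn n, ∑ D ∈ (Icc 1 n).powerset, w ρ (Icc 1 n) D *
      ((Gf n p.1 p.2 D).card : ℝ) ≤
      1 / (1 - ρ) * (Bd n q p.1 p.2 / ((Icc p.1 p.2).card + 1)) +
      (Icc p.1 p.2).card * (1 - ρ) ^ (Icc p.1 p.2).card +
      (Icc p.1 p.2).card * (1 / 2) ^ (Icc p.1 p.2).card := by
    intro p hp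
    unfold Pn at hp
    rw [Finset.mem_filter, Finset.mem_product, Finset.mem_Icc, Finset.mem_Icc] at hp
    have := expect n q p.1 p.2 (by omega) hp.1.1.1 hp.2 hp.1.2.2 ρ hρ
    refine this.trans (le_of_eq ?_)
    congr 2
    have h1 : (1 - ρ) ≠ 0 := by linarith
    have h2 : ((Icc p.1 p.2).card : ℝ) + 1 ≠ 0 := by positivity
    field_simp
  refine (Finset.sum_le_sum hpp).trans ?_
  rw [Finset.sum_add_distrib, Finset.sum_add_distrib, ← Finset.mul_sum]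
  have hk1 := hK1 n
  have hk2 := hK2 n
  have hinv : 1 / (1 - ρ) ≤ 1 + 1 / (2 * q) := by
    rw [div_le_iff₀ (by linarith)]
    have e1 : 2 * ρ ≤ 1 / (2 * q) := by
      have : 2 * (1 / (4 * (q:ℝ))) = 1 / (2 * q) := by field_simp; ring
      linarith
    have e2 : 1 / (2 * (q : ℝ)) ≤ 1 / 8 := one_div_le_one_div_of_le (by norm_num) (by linarith)
    nlinarith
  have hinv0 : 0 < 1 / (1 - ρ) := by
    have : 0 < 1 - ρ := by linarith
    positivity
  have hRHS0 : 0 ≤ (n : ℝ) ^ 2 * (3 / 8 + 5 / (2 * q)) + 72 * n * s := by positivity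
  have hm1 : 1 / (1 - ρ) * ∑ p ∈ Pn n, Bd n q p.1 p.2 / ((Icc p.1 p.2).card + 1) ≤
      (1 + 1 / (2 * q)) * ((n : ℝ) ^ 2 * (3 / 8 + 5 / (2 * q)) + 72 * n * s) := by
    calc 1 / (1 - ρ) * ∑ p ∈ Pn n, Bd n q p.1 p.2 / ((Icc p.1 p.2).card + 1)
        ≤ 1 / (1 - ρ) * ((n : ℝ) ^ 2 * (3 / 8 + 5 / (2 * q)) + 72 * n * s) :=
          mul_le_mul_of_nonneg_left hS hinv0.le
      _ ≤ _ := mul_le_mul_of_nonneg_right hinv hRHS0
  have hm2 : (1 + 1 / (2 * (q : ℝ))) * ((n : ℝ) ^ 2 * (3 / 8 + 5 / (2 * q))) ≤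
      (n : ℝ) ^ 2 * (3 / 8 + 3 / q) := by
    have e1 := coef (q : ℝ) hq'
    calc (1 + 1 / (2 * (q : ℝ))) * ((n : ℝ) ^ 2 * (3 / 8 + 5 / (2 * q)))
        = (n : ℝ) ^ 2 * ((1 + 1 / (2 * (q : ℝ))) * (3 / 8 + 5 / (2 * q))) := by ring
      _ ≤ _ := mul_le_mul_of_nonneg_left e1 hn2
  have hm3 : (1 + 1 / (2 * (q : ℝ))) * (72 * n * s) ≤ 144 * n * s := by
    have : 1 / (2 * (q : ℝ)) ≤ 1 := by
      rw [div_le_one (by positivity)]; linarith
    have h0 : 0 ≤ 72 * (n : ℝ) * s := by positivity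
    nlinarith
  have hm4 : 144 * n * s + n * K1 + n * K2 ≤ 1 / q * (n : ℝ) ^ 2 :=
    fin_alg q n s K1 K2 hq' hnr hs2 hs1 hK10 hK20 hsq
  have e5 : (3 / 8 + 6 / (q : ℝ)) * (n : ℝ) ^ 2 =
      (n : ℝ) ^ 2 * (3 / 8 + 3 / q) + 1 / q * (n : ℝ) ^ 2 + 2 / q * (n : ℝ) ^ 2 := by ring
  have e6 : 0 ≤ 2 / (q : ℝ) * (n : ℝ) ^ 2 := by positivity
  rw [e5]
  have e7 : (1 + 1 / (2 * (q : ℝ))) * ((n : ℝ) ^ 2 * (3 / 8 + 5 / (2 * q)) + 72 * n * s) =
    (1 + 1 / (2 * (q : ℝ))) * ((n : ℝ) ^ 2 * (3 / 8 + 5 / (2 * q))) +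
    (1 + 1 / (2 * (q : ℝ))) * (72 * n * s) := by ring
  rw [e7] at hm1
  linarith

end Pool.Agent.TH437.CS
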