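import Mathlib
import Pool.Agent.TH437.CS.Asym2

set_option autoImplicit false
set_option linter.unusedVariables false
set_option linter.unusedSimpArgs false
set_option linter.unusedSectionVars false
set_option maxHeartbeats 1000000
open Classical Finset

namespace Pool.Agent.TH437.CS

/-- a good deleted set exists -/
lemma exists_good (q : ℕ) (hq : 4 ≤ q) : ∃ n0 : ℕ, ∀ n ≥ n0, ∃ D ∈ (Icc 1 n).powerset,
    q * D.card < n ∧
    (∑ p ∈ Pn n, ((Gf n p.1 p.2 D).card : ℝ)) ≤ (3 / 8 + 7 / q) * (n : ℝ) ^ 2 := by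
  obtain ⟨n0, h0⟩ := mean q hq (1 / 4 ^ q) rfl
  refine ⟨n0 + 3 * q + 1, ?_⟩
  intro n hn
  by_contra hcon
  push Not at hcon
  have hmean := h0 n (by omega)
  set ρ : ℝ := 1 / 4 ^ q with hρ
  have hq' : (4 : ℝ) ≤ q := by exact_mod_cast hq
  have hqpos : (0 : ℝ) < q := by linarith
  have h4 : (4 : ℝ) ≤ 4 ^ q := by
    calc (4 : ℝ) = 4 ^ 1 := by norm_num
      _ ≤ 4 ^ q := pow_le_pow_right₀ (by norm_num) (by omega)
  have hρ0 : 0 < ρ := by positivity
  have hρ1 : ρ < 1 := by rw [hρ, div_lt_one (by positivity)]; linarith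
  have hn1 : (1 : ℝ) ≤ n := by exact_mod_cast (by omega : 1 ≤ n)
  set c : ℝ := (3 / 8 + 7 / q) * (n : ℝ) ^ 2 with hc
  have hc0 : 0 ≤ c := by positivity
  have hpt : ∀ D ∈ (Icc 1 n).powerset, w ρ (Icc 1 n) D * c -
      c * (w ρ (Icc 1 n) D * ((4 : ℝ) ^ q) ^ (D ∩ Icc 1 n).card / 4 ^ n) ≤
      w ρ (Icc 1 n) D * (∑ p ∈ Pn n, ((Gf n p.1 p.2 D).card : ℝ)) := by
    intro D hD
    have hw := w_nonneg ρ hρ0.le hρ1.le (Icc 1 n) D
    have hS : 0 ≤ ∑ p ∈ Pn n, ((Gf n p.1 p.2 D).card : ℝ) :=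
      Finset.sum_nonneg (fun _ _ => Nat.cast_nonneg _)
    by_cases hDc : q * D.card < n
    · have h1 := hcon D hD hDc
      have h2 := mul_le_mul_of_nonneg_left h1.le hw
      have h3 : 0 ≤ c * (w ρ (Icc 1 n) D * ((4 : ℝ) ^ q) ^ (D ∩ Icc 1 n).card / 4 ^ n) :=
        mul_nonneg hc0 (div_nonneg (mul_nonneg hw (by positivity)) (by positivity))
      linarith
    · push Not at hDc
      have hint : D ∩ Icc 1 n = D := Finset.inter_eq_left.2 (Finset.mem_powerset.1 hD)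
      rw [hint]
      have h6 : (4 : ℝ) ^ n ≤ ((4 : ℝ) ^ q) ^ D.card := by
        rw [← pow_mul]
        exact pow_le_pow_right₀ (by norm_num) hDc
      have h7 : w ρ (Icc 1 n) D ≤ w ρ (Icc 1 n) D * ((4 : ℝ) ^ q) ^ D.card / 4 ^ n := by
        rw [le_div_iff₀ (by positivity)]
        exact mul_le_mul_of_nonneg_left h6 hw
      have h8 := mul_le_mul_of_nonneg_left h7 hc0
      have h9 : 0 ≤ w ρ (Icc 1 n) D * (∑ p ∈ Pn n, ((Gf n p.1 p.2 D).card : ℝ)) :=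
        mul_nonneg hw hS
      linarith
  have hsum := (Finset.sum_le_sum hpt).trans hmean
  rw [Finset.sum_sub_distrib, ← Finset.sum_mul, w_sum, ← Finset.mul_sum, ← Finset.sum_div,
    gen ρ (4 ^ q) (Icc 1 n) (Icc 1 n) (Finset.Subset.refl _)] at hsum
  have hcardn : (Icc 1 n).card = n := by rw [Nat.card_Icc]; omega
  rw [hcardn] at hsum
  have h5 : ρ * 4 ^ q = 1 := by rw [hρ]; field_simp
  rw [h5] at hsum
  have h6 : (1 + (1 - ρ)) ^ n / (4 : ℝ) ^ n ≤ (1 / 2) ^ n := by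
    rw [← div_pow]
    apply pow_le_pow_left₀
    · linarith
    · linarith
  have h7 : (1 / 2 : ℝ) ^ n ≤ 1 / (3 * q) := by
    rw [one_div_pow]
    apply one_div_le_one_div_of_le (by positivity)
    have e1 : 3 * q < 2 ^ n := by
      have : n < 2 ^ n := Nat.lt_two_pow_self
      omega
    have e2 : ((3 * q : ℕ) : ℝ) ≤ ((2 ^ n : ℕ) : ℝ) := by exact_mod_cast e1.le
    push_cast at e2
    exact e2
  have h8 : c * ((1 + (1 - ρ)) ^ n / (4 : ℝ) ^ n) ≤ c * (1 / (3 * q)) :=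
    mul_le_mul_of_nonneg_left (h6.trans h7) hc0
  have h9 : c - c * (1 / (3 * q)) ≤ (3 / 8 + 6 / q) * (n : ℝ) ^ 2 := by linarith
  have hn2 : (0 : ℝ) < (n : ℝ) ^ 2 := by positivity
  have h10 : (3 / 8 + 7 / (q : ℝ)) - (3 / 8 + 7 / q) * (1 / (3 * q)) ≤ 3 / 8 + 6 / q := by
    have : ((3 / 8 + 7 / (q : ℝ)) - (3 / 8 + 7 / q) * (1 / (3 * q))) * (n : ℝ) ^ 2 ≤
        (3 / 8 + 6 / q) * (n : ℝ) ^ 2 := by
      rw [hc] at h9
      linarith
    exact le_of_mul_le_mul_right this hn2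
  set v : ℝ := 1 / (q : ℝ) with hv
  have hv0 : 0 < v := by positivity
  have hv1 : v ≤ 1 / 4 := one_div_le_one_div_of_le (by norm_num) hq'
  have e1 : 7 / (q : ℝ) = 7 * v := by rw [hv]; field_simp
  have e2 : 1 / (3 * (q : ℝ)) = v / 3 := by rw [hv]; field_simp
  have e3 : 6 / (q : ℝ) = 6 * v := by rw [hv]; field_simp
  rw [e1, e2, e3] at h10
  nlinarith

/-- number of distinct run sums for the sequence of kept elements -/
theorem many_sums (q : ℕ) (hq : 18 ≤ q) : ∃ n0 : ℕ, ∀ n ≥ n0, ∃ (D : Finset ℕ) (m : ℕ),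
    (∀ j < m, sq D 0 j ≤ n) ∧
    (1 / 8 * (1 - 18 / q)) * (n : ℝ) ^ 2 ≤
      (((Rn m).image (fun p => run (sq D 0) p.1 p.2)).card : ℝ) := by
  obtain ⟨n0, h0⟩ := exists_good q (by omega)
  refine ⟨n0 + 1, ?_⟩
  intro n hn
  obtain ⟨D, hD, hDc, hW⟩ := h0 n (by omega)
  obtain ⟨m, hm1, hm2, hm3⟩ := exists_m n D
  refine ⟨D, m, hm1, ?_⟩
  have hpos : ∀ i, 0 < sq D 0 i := fun i => by have := sq_gt D 0 i; omega
  have h1 := second_moment (Rn m) (fun p => run (sq D 0) p.1 p.2)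
  have h2 := coincidences (sq D 0) hpos m
  have h3 := quad_le n D m hm1
  have h4 : ((Quad (sq D 0) m).card : ℝ) ≤ (3 / 8 + 7 / q) * (n : ℝ) ^ 2 := by
    refine le_trans ?_ hW
    have : ((Quad (sq D 0) m).card : ℝ) ≤ ((∑ p ∈ ((Icc 1 n) ×ˢ (Icc 1 n)).filter
      (fun p => p.1 ≤ p.2), (Gf n p.1 p.2 D).card : ℕ) : ℝ) := by exact_mod_cast h3
    refine this.trans (le_of_eq ?_)
    push_cast
    rfl
  have hR := card_Rn m
  set I : ℝ := (((Rn m).image (fun p => run (sq D 0) p.1 p.2)).card : ℝ) with hI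
  set r : ℝ := ((Rn m).card : ℝ) with hr
  have hr2 : 2 * r = m * (m + 1) := by rw [hr]; exact_mod_cast hR
  have hq' : (18 : ℝ) ≤ q := by exact_mod_cast hq
  have hqpos : (0 : ℝ) < q := by linarith
  have hn1 : (1 : ℝ) ≤ n := by exact_mod_cast (by omega : 1 ≤ n)
  have hmain : r ^ 2 ≤ I * (r + 4 * ((3 / 8 + 7 / q) * (n : ℝ) ^ 2)) := by
    have e1 : (((Rn m).card ^ 2 : ℕ) : ℝ) ≤ ((((Rn m).image (fun p => run (sq D 0) p.1 p.2)).card *
      ((Rn m).card + 4 * (Quad (sq D 0) m).card) : ℕ) : ℝ) := by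
      exact_mod_cast h1.trans (Nat.mul_le_mul_left _ h2)
    push_cast at e1
    rw [← hI, ← hr] at e1
    refine e1.trans ?_
    apply mul_le_mul_of_nonneg_left _ (by rw [hI]; positivity)
    linarith
  set v : ℝ := 1 / (q : ℝ) with hv
  have hv0 : 0 < v := by positivity
  have hv1 : v ≤ 1 / 18 := one_div_le_one_div_of_le (by norm_num) hq'
  have ev1 : 7 / (q : ℝ) = 7 * v := by rw [hv]; field_simp
  have ev2 : 18 / (q : ℝ) = 18 * v := by rw [hv]; field_simp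
  rw [ev1] at hmain
  rw [ev2]
  have hmlow : (1 - v) * n ≤ m := by
    have e1 : (q : ℝ) * D.card ≤ n := by exact_mod_cast hDc.le
    have e2 : (n : ℝ) ≤ D.card + m := by exact_mod_cast hm2
    have e3 : (D.card : ℝ) ≤ v * n := by
      rw [hv, one_div, inv_mul_eq_div, le_div_iff₀ hqpos]
      linarith
    linarith
  have hmup : (m : ℝ) ≤ n := by exact_mod_cast hm3
  have hm0 : (0 : ℝ) ≤ m := Nat.cast_nonneg _
  set N : ℝ := (n : ℝ) ^ 2 with hN
  have hN0 : 0 < N := by positivity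
  have hr0 : (1 - v) ^ 2 * N / 2 ≤ r := by
    have e1 : ((1 - v) * n) ^ 2 ≤ (m : ℝ) ^ 2 :=
      pow_le_pow_left₀ (by nlinarith) hmlow 2
    rw [mul_pow] at e1
    nlinarith
  -- conclude
  by_contra hcon
  push Not at hcon
  set κ : ℝ := 1 / 8 * (1 - 18 * v) with hκ
  have hκ0 : 0 ≤ κ := by rw [hκ]; linarith
  have hrpos : 0 < r := by
    have : 0 < (1 - v) ^ 2 * N / 2 := by
      have : 0 < 1 - v := by linarith
      positivity
    linarith
  have hc1 : r ^ 2 < κ * N * (r + 4 * ((3 / 8 + 7 * v) * N)) ∨ κ * N * (r + 4 * ((3 / 8 + 7 * v) * N)) = 0 := by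
    left
    refine lt_of_le_of_lt hmain ?_
    apply mul_lt_mul_of_pos_right hcon
    positivity
  -- r (r - κ N) ≥ r0 (r0 - κ N)
  set r0 : ℝ := (1 - v) ^ 2 * N / 2 with hr0d
  have hb : 1 - 2 * v ≤ (1 - v) ^ 2 := by nlinarith
  have hr0low : (1 - 2 * v) * N / 2 ≤ r0 := by
    rw [hr0d]
    have := mul_le_mul_of_nonneg_right hb hN0.le
    linarith
  have hκr0 : κ * N ≤ r0 := by
    have : κ ≤ (1 - 2 * v) / 2 := by rw [hκ]; linarith
    have := mul_le_mul_of_nonneg_right this hN0.le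
    linarith
  have key : κ * N * (r0 + 4 * ((3 / 8 + 7 * v) * N)) ≤ r0 ^ 2 := by
    -- r0 = t N with t ≥ (1-2v)/2
    obtain ⟨t, ht⟩ : ∃ t : ℝ, r0 = t * N := ⟨(1 - v) ^ 2 / 2, by rw [hr0d]; ring⟩
    have ht1 : (1 - 2 * v) / 2 ≤ t := by
      have : (1 - 2 * v) / 2 * N ≤ t * N := by rw [← ht]; linarith
      exact le_of_mul_le_mul_right this hN0
    rw [ht]
    have e1 : κ * (t + 4 * (3 / 8 + 7 * v)) ≤ t ^ 2 := by
      have e2 : (1 - 2 * v) / 2 * ((1 - 2 * v) / 2 - κ) ≤ t * (t - κ) := by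
        have hk : 0 ≤ (1 - 2 * v) / 2 - κ := by rw [hκ]; linarith
        have h5 : 0 ≤ (1 - 2 * v) / 2 := by linarith
        exact mul_le_mul ht1 (by linarith) hk (by linarith)
      have e3 : κ * (4 * (3 / 8 + 7 * v)) ≤ (1 - 2 * v) / 2 * ((1 - 2 * v) / 2 - κ) := by
        rw [hκ]
        nlinarith
      nlinarith
    have e4 := mul_le_mul_of_nonneg_right e1 (by positivity : (0:ℝ) ≤ N ^ 2)
    calc κ * N * (t * N + 4 * ((3 / 8 + 7 * v) * N)) = κ * (t + 4 * (3 / 8 + 7 * v)) * N ^ 2 := by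
          ring
      _ ≤ t ^ 2 * N ^ 2 := e4
      _ = (t * N) ^ 2 := by ring
  rcases hc1 with hc1 | hc1
  · have e5 : r0 * (r0 - κ * N) ≤ r * (r - κ * N) := by
      have h5 : 0 ≤ r0 - κ * N := by linarith
      exact mul_le_mul hr0 (by linarith) h5 hrpos.le
    nlinarith
  · have e6 : 0 ≤ κ * N * (r + 4 * ((3 / 8 + 7 * v) * N)) := by positivity
    have e7 : r ^ 2 ≤ 0 := by
      have e8 : I * (r + 4 * ((3 / 8 + 7 * v) * N)) ≤ κ * N * (r + 4 * ((3 / 8 + 7 * v) * N)) :=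
        mul_le_mul_of_nonneg_right hcon.le (by positivity)
      linarith
    have : 0 < r ^ 2 := by positivity
    linarith

end Pool.Agent.TH437.CS
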